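import Mathlib

set_option autoImplicit false
set_option linter.unusedSectionVars false
set_option linter.unusedVariables false

open Finset

namespace Pool.Agent.Helper454.EL2

variable {V : Type} [DecidableEq V]

/-- the link of `Q` outside `S` -/
def L (F : Finset (Finset V)) (S Q e : Finset V) : Prop :=
  e.card = 2 ∧ Disjoint e S ∧ Q ∪ e ∈ F

theorem big {n : ℕ} (hn : 3 ≤ n) {F : Finset (Finset V)} {S : Finset V}
    (hint : ∀ A ∈ F, ∀ B ∈ F, (A ∩ B).Nonempty) (hSc : S.card = 2 * n - 3)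
    (hS : ∀ A ⊆ S, A.card = n → A ∈ F) {A : Finset V} (hA : A ∈ F) : n - 2 ≤ (A ∩ S).card := by
  by_contra hcon
  push Not at hcon
  have h1 := card_sdiff_add_card_inter S A
  rw [inter_comm] at h1
  have h2 : n ≤ (S \ A).card := by omega
  obtain ⟨B, hB, hBn⟩ := exists_subset_card_eq h2
  obtain ⟨z, hz⟩ := hint A hA B (hS B (hB.trans sdiff_subset) hBn)
  rw [mem_inter] at hz
  exact (mem_sdiff.1 (hB hz.2)).2 hz.1

theorem cross {F : Finset (Finset V)} {S Q Q' e e' : Finset V}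
    (hint : ∀ A ∈ F, ∀ B ∈ F, (A ∩ B).Nonempty) (hQ : Q ⊆ S) (hQ' : Q' ⊆ S)
    (hd : Disjoint Q Q') (he : L F S Q e) (he' : L F S Q' e') : (e ∩ e').Nonempty := by
  obtain ⟨z, hz⟩ := hint _ he.2.2 _ he'.2.2
  rw [mem_inter, mem_union, mem_union] at hz
  refine ⟨z, ?_⟩
  rw [mem_inter]
  have h1 : z ∈ Q → z ∉ Q' := fun h => disjoint_left.1 hd h
  have h2 : z ∈ e → z ∉ S := fun h => disjoint_left.1 he.2.1 h
  have h3 : z ∈ e' → z ∉ S := fun h => disjoint_left.1 he'.2.1 h
  have h4 := @hQ z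
  have h5 := @hQ' z
  tauto

theorem keyw {F : Finset (Finset V)} {S Q e : Finset V} {w : V}
    (hint : ∀ A ∈ F, ∀ B ∈ F, (A ∩ B).Nonempty) (hQ : Q ⊆ S) (hw : w ∉ S)
    (hwF : insert w (S \ Q) ∈ F) (he : L F S Q e) : w ∈ e := by
  obtain ⟨z, hz⟩ := hint _ hwF _ he.2.2
  rw [mem_inter, mem_union, mem_insert, mem_sdiff] at hz
  have h2 : z ∈ e → z ∉ S := fun h => disjoint_left.1 he.2.1 h
  have h4 := @hQ z
  obtain ⟨hz1, hz2⟩ := hz
  rcases hz1 with rfl | h <;> rcases hz2 with h' | h'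
  · exact absurd (h4 h') hw
  · exact h'
  · exact absurd h' h.2
  · exact absurd h.1 (h2 h')

theorem split {n : ℕ} (hn : 3 ≤ n) {F : Finset (Finset V)} {S : Finset V}
    (hunif : ∀ A ∈ F, A.card = n)
    (hint : ∀ A ∈ F, ∀ B ∈ F, (A ∩ B).Nonempty) (hSc : S.card = 2 * n - 3)
    (hS : ∀ A ⊆ S, A.card = n → A ∈ F)
    (hchi : ∀ X : Finset V, ∃ A ∈ F, A ⊆ X ∨ Disjoint A X)
    {Q : Finset V} (hQ : Q ⊆ S) (hQn : Q.card = n - 2) (Y : Finset V) :
    (∃ e, L F S Q e ∧ Disjoint e Y ∧ e ⊆ F.biUnion id) ∨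
    (∃ w ∈ Y, w ∉ S ∧ insert w (S \ Q) ∈ F) ∨
    (∃ Q' ⊆ S, Q'.card = n - 2 ∧ Disjoint Q Q' ∧ ∃ e', L F S Q' e' ∧ e' ⊆ Y) := by
  obtain ⟨A, hA, h⟩ := hchi (Q ∪ ((F.biUnion id \ S) \ Y))
  have hAn := hunif A hA
  have hb := big hn hint hSc hS hA
  have hAU : ∀ z ∈ A, z ∈ F.biUnion id := fun z hz => mem_biUnion.2 ⟨A, hA, hz⟩
  have hsp := card_sdiff_add_card_inter A S
  have hun : A ∩ S ∪ A \ S = A := by
    ext z; simp only [mem_union, mem_inter, mem_sdiff]; tauto
  rcases h with h | h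
  · left
    have h1 : A ∩ S ⊆ Q := by
      intro z hz
      rw [mem_inter] at hz
      rcases mem_union.1 (h hz.1) with h2 | h2
      · exact h2
      · exact absurd hz.2 (mem_sdiff.1 (mem_sdiff.1 h2).1).2
    have h2 : A ∩ S = Q := eq_of_subset_of_card_le h1 (by omega)
    refine ⟨A \ S, ⟨by rw [← h2] at hQn; omega, sdiff_disjoint, ?_⟩, ?_, ?_⟩
    · rw [← h2, hun]; exact hA
    · rw [disjoint_left]
      intro z hz hzY
      rw [mem_sdiff] at hz
      rcases mem_union.1 (h hz.1) with h3 | h3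
      · exact hz.2 (hQ h3)
      · exact (mem_sdiff.1 h3).2 hzY
    · intro z hz
      exact hAU z (mem_sdiff.1 hz).1
  · right
    have h1 : A ∩ S ⊆ S \ Q := by
      intro z hz
      rw [mem_inter] at hz
      exact mem_sdiff.2 ⟨hz.2, fun h3 => disjoint_left.1 h hz.1 (mem_union_left _ h3)⟩
    have h2 : A \ S ⊆ Y := by
      intro z hz
      rw [mem_sdiff] at hz
      by_contra hzY
      exact disjoint_left.1 h hz.1 (mem_union_right _ (mem_sdiff.2 ⟨mem_sdiff.2 ⟨hAU z hz.1, hz.2⟩, hzY⟩))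
    have h3 : (S \ Q).card = n - 1 := by rw [card_sdiff_of_subset hQ]; omega
    have h4 := card_le_card h1
    rcases Nat.lt_or_ge (A ∩ S).card (n - 1) with h5 | h5
    · right
      refine ⟨A ∩ S, inter_subset_right, by omega, ?_, A \ S, ⟨by omega, sdiff_disjoint, ?_⟩, h2⟩
      · rw [disjoint_left]
        intro z hz hz'
        exact (mem_sdiff.1 (h1 hz')).2 hz
      · rw [hun]; exact hA
    · left
      have h6 : A ∩ S = S \ Q := eq_of_subset_of_card_le h1 (by omega)
      have h7 : (A \ S).card = 1 := by omega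
      obtain ⟨w, hw⟩ := card_eq_one.1 h7
      have hw' : w ∈ A \ S := by rw [hw]; exact mem_singleton_self w
      refine ⟨w, h2 hw', (mem_sdiff.1 hw').2, ?_⟩
      have h8 : insert w (S \ Q) = A := by
        rw [← hun, h6, hw]
        ext z; simp only [mem_insert, mem_union, mem_singleton]; tauto
      rw [h8]; exact hA

/-- two different neighbours -/
theorem other {n : ℕ} (hn : 3 ≤ n) {S Q Q' : Finset V} (hSc : S.card = 2 * n - 3) (hQ : Q ⊆ S)
    (hQn : Q.card = n - 2) :
    ∃ Q'' ⊆ S, Q''.card = n - 2 ∧ Disjoint Q Q'' ∧ Q'' ≠ Q' := by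
  have h3 : (S \ Q).card = n - 1 := by rw [card_sdiff_of_subset hQ]; omega
  obtain ⟨p, hp, q, hq, hpq⟩ := one_lt_card.1 (by omega : 1 < (S \ Q).card)
  have hone : ∀ r ∈ S \ Q, (S \ Q).erase r ⊆ S ∧ ((S \ Q).erase r).card = n - 2 ∧
      Disjoint Q ((S \ Q).erase r) := by
    intro r hr
    refine ⟨(erase_subset _ _).trans sdiff_subset, by rw [card_erase_of_mem hr]; omega, ?_⟩
    rw [disjoint_left]
    intro z hz hz'
    exact (mem_sdiff.1 (mem_of_mem_erase hz')).2 hz
  by_cases h : (S \ Q).erase p = Q'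
  · refine ⟨(S \ Q).erase q, (hone q hq).1, (hone q hq).2.1, (hone q hq).2.2, ?_⟩
    rw [← h]
    intro h4
    have : q ∈ (S \ Q).erase p := mem_erase.2 ⟨hpq.symm, hq⟩
    rw [← h4] at this
    exact (ne_of_mem_erase this) rfl
  · exact ⟨(S \ Q).erase p, (hone p hp).1, (hone p hp).2.1, (hone p hp).2.2, h⟩

theorem conn {n : ℕ} (hn : 3 ≤ n) {S : Finset V} (hSc : S.card = 2 * n - 3)
    {T : Finset (Finset V)} (hT : T ⊆ powersetCard (n - 2) S)
    (hcl : ∀ Q ∈ T, ∀ Q' ⊆ S, Q'.card = n - 2 → Disjoint Q Q' → Q' ∈ T) :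
    ∀ m : ℕ, ∀ Q ∈ T, ∀ Q' ⊆ S, Q'.card = n - 2 → (Q' \ Q).card = m → Q' ∈ T := by
  intro m
  induction m with
  | zero =>
    intro Q hQ Q' hQ' hQn hm
    have h1 : Q' ⊆ Q := sdiff_eq_empty_iff_subset.1 (card_eq_zero.1 hm)
    have h2 := (mem_powersetCard.1 (hT hQ)).2
    rw [eq_of_subset_of_card_le h1 (by omega)]; exact hQ
  | succ m ih =>
    intro Q hQ Q' hQ' hQn hm
    have hQS := (mem_powersetCard.1 (hT hQ)).1
    have hQc := (mem_powersetCard.1 (hT hQ)).2
    obtain ⟨b, hb⟩ : (Q' \ Q).Nonempty := by rw [← card_pos, hm]; omega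
    obtain ⟨a, ha⟩ : (Q \ Q').Nonempty := by
      rw [← card_pos]
      have h1 := card_sdiff_add_card_inter Q Q'
      have h2 := card_sdiff_add_card_inter Q' Q
      rw [inter_comm] at h2
      omega
    rw [mem_sdiff] at ha hb
    have hR : (S \ insert b Q).card = n - 2 := by
      rw [card_sdiff_of_subset (insert_subset (hQ' hb.1) hQS), card_insert_of_notMem hb.2]
      omega
    have hRT : S \ insert b Q ∈ T := by
      refine hcl Q hQ _ sdiff_subset hR ?_
      rw [disjoint_left]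
      intro z hz hz'
      exact (mem_sdiff.1 hz').2 (mem_insert_of_mem hz)
    have hab : a ≠ b := by rintro rfl; exact hb.2 ha.1
    have hQ2 : (insert b Q).erase a ∈ T := by
      refine hcl _ hRT _ ((erase_subset _ _).trans (insert_subset (hQ' hb.1) hQS)) ?_ ?_
      · rw [card_erase_of_mem (mem_insert_of_mem ha.1), card_insert_of_notMem hb.2]; omega
      · rw [disjoint_left]
        intro z hz hz'
        exact (mem_sdiff.1 hz).2 (mem_of_mem_erase hz')
    refine ih _ hQ2 Q' hQ' hQn ?_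
    have h2 : Q' \ (insert b Q).erase a = (Q' \ Q).erase b := by
      ext z
      simp only [mem_sdiff, mem_erase, mem_insert]
      constructor
      · rintro ⟨h3, h4⟩
        refine ⟨fun h5 => h4 ⟨fun h6 => ha.2 (h6 ▸ h3), Or.inl h5⟩, h3, fun h5 => ?_⟩
        exact h4 ⟨fun h6 => ha.2 (h6 ▸ h3), Or.inr h5⟩
      · rintro ⟨h3, h4, h5⟩
        refine ⟨h4, ?_⟩
        rintro ⟨-, h6 | h6⟩
        · exact h3 h6
        · exact h5 h6
    rw [h2, card_erase_of_mem (mem_sdiff.2 hb), hm]; simp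

theorem tree {n : ℕ} (hn : 3 ≤ n) {S : Finset V} (hSc : S.card = 2 * n - 3)
    (f : Finset V → Finset V) (hf2 : ∀ Q ⊆ S, Q.card = n - 2 → (f Q).card = 2)
    (hfx : ∀ Q ⊆ S, Q.card = n - 2 → ∀ Q' ⊆ S, Q'.card = n - 2 → Disjoint Q Q' →
      (f Q ∩ f Q').Nonempty) :
    ((powersetCard (n - 2) S).biUnion f).card ≤ (powersetCard (n - 2) S).card + 1 := by
  have hne : (powersetCard (n - 2) S).Nonempty := by
    rw [powersetCard_nonempty]; omega
  obtain ⟨Q0, hQ0⟩ := hne
  have key : ∀ k : ℕ, k < (powersetCard (n - 2) S).card → ∃ T ⊆ powersetCard (n - 2) S,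
      T.card = k + 1 ∧ (T.biUnion f).card ≤ T.card + 1 := by
    intro k
    induction k with
    | zero =>
      intro _
      rw [mem_powersetCard] at hQ0
      refine ⟨{Q0}, by rw [singleton_subset_iff, mem_powersetCard]; exact hQ0, by simp, ?_⟩
      rw [singleton_biUnion, hf2 Q0 hQ0.1 hQ0.2]; simp
    | succ k ih =>
      intro hk
      obtain ⟨T, hT, hTk, hTc⟩ := ih (by omega)
      have hex : ∃ Q ∈ T, ∃ Q' ⊆ S, Q'.card = n - 2 ∧ Disjoint Q Q' ∧ Q' ∉ T := by
        by_contra hcon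
        push Not at hcon
        have h1 : powersetCard (n - 2) S ⊆ T := by
          intro Q' hQ'
          rw [mem_powersetCard] at hQ'
          obtain ⟨Q, hQ⟩ : T.Nonempty := by rw [← card_pos]; omega
          exact conn hn hSc hT hcon _ Q hQ Q' hQ'.1 hQ'.2 rfl
        have := card_le_card h1
        omega
      obtain ⟨Q, hQ, Q', hQ'S, hQ'n, hd, hQ'T⟩ := hex
      have hQ2 := mem_powersetCard.1 (hT hQ)
      refine ⟨insert Q' T, insert_subset (mem_powersetCard.2 ⟨hQ'S, hQ'n⟩) hT,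
        by rw [card_insert_of_notMem hQ'T, hTk], ?_⟩
      rw [biUnion_insert, card_insert_of_notMem hQ'T]
      obtain ⟨z, hz⟩ := hfx Q hQ2.1 hQ2.2 Q' hQ'S hQ'n hd
      rw [mem_inter] at hz
      have h2 : f Q' ∪ T.biUnion f ⊆ (f Q').erase z ∪ T.biUnion f := by
        intro y hy
        by_cases hyz : y = z
        · subst hyz
          exact mem_union_right _ (mem_biUnion.2 ⟨Q, hQ, hz.1⟩)
        · rcases mem_union.1 hy with h3 | h3
          · exact mem_union_left _ (mem_erase.2 ⟨hyz, h3⟩)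
          · exact mem_union_right _ h3
      have h3 := (card_le_card h2).trans (card_union_le _ _)
      rw [card_erase_of_mem hz.2, hf2 Q' hQ'S hQ'n] at h3
      omega
  have hpos : 0 < (powersetCard (n - 2) S).card := card_pos.2 ⟨Q0, hQ0⟩
  obtain ⟨T, hT, hTk, hTc⟩ := key ((powersetCard (n - 2) S).card - 1) (by omega)
  have hTe : T = powersetCard (n - 2) S := eq_of_subset_of_card_le hT (by omega)
  rw [hTe] at hTc
  exact hTc

theorem cover {n : ℕ} (hn : 3 ≤ n) {F : Finset (Finset V)} {S : Finset V}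
    (hunif : ∀ A ∈ F, A.card = n)
    (hint : ∀ A ∈ F, ∀ B ∈ F, (A ∩ B).Nonempty) (hSc : S.card = 2 * n - 3)
    (hS : ∀ A ⊆ S, A.card = n → A ∈ F)
    (hchi : ∀ X : Finset V, ∃ A ∈ F, A ⊆ X ∨ Disjoint A X)
    (f : Finset V → Finset V) (hf : ∀ Q ⊆ S, Q.card = n - 2 → L F S Q (f Q))
    (hmax : ∀ g : Finset V → Finset V, (∀ Q ⊆ S, Q.card = n - 2 → L F S Q (g Q)) →
      ((powersetCard (n - 2) S).biUnion g).card ≤ ((powersetCard (n - 2) S).biUnion f).card)
    {w : V} (hwF : w ∈ F.biUnion id) (hwS : w ∉ S) : w ∈ (powersetCard (n - 2) S).biUnion f := by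
  by_contra hw
  have hwf : ∀ Q ⊆ S, Q.card = n - 2 → w ∉ f Q := fun Q h1 h2 h3 =>
    hw (mem_biUnion.2 ⟨Q, mem_powersetCard.2 ⟨h1, h2⟩, h3⟩)
  -- `w` lies in some link edge
  obtain ⟨Q, hQ, hQn, e, he, hwe⟩ : ∃ Q ⊆ S, Q.card = n - 2 ∧ ∃ e, L F S Q e ∧ w ∈ e := by
    obtain ⟨A, hA, hwA⟩ := mem_biUnion.1 hwF
    simp only [id] at hwA
    have hAn := hunif A hA
    have hb := big hn hint hSc hS hA
    have hsp := card_sdiff_add_card_inter A S
    have hun : A ∩ S ∪ A \ S = A := by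
      ext z; simp only [mem_union, mem_inter, mem_sdiff]; tauto
    have hwAS : w ∈ A \ S := mem_sdiff.2 ⟨hwA, hwS⟩
    have hpos : 0 < (A \ S).card := card_pos.2 ⟨w, hwAS⟩
    rcases Nat.lt_or_ge (A ∩ S).card (n - 1) with h5 | h5
    · exact ⟨A ∩ S, inter_subset_right, by omega, A \ S, ⟨by omega, sdiff_disjoint,
        by rw [hun]; exact hA⟩, hwAS⟩
    · have hQn : (S \ (A ∩ S)).card = n - 2 := by
        rw [card_sdiff_of_subset inter_subset_right]; omega
      refine ⟨S \ (A ∩ S), sdiff_subset, hQn, f (S \ (A ∩ S)), hf _ sdiff_subset hQn, ?_⟩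
      refine keyw hint sdiff_subset hwS ?_ (hf _ sdiff_subset hQn)
      have h7 : (A \ S).card = 1 := by omega
      obtain ⟨v, hv⟩ := card_eq_one.1 h7
      have hwv : w = v := by rw [hv] at hwAS; exact mem_singleton.1 hwAS
      have h8 : insert w (S \ (S \ (A ∩ S))) = A := by
        rw [sdiff_sdiff_right_self, inf_eq_inter, inter_eq_right.2 inter_subset_right, hwv]
        conv_rhs => rw [← hun, hv]
        ext z; simp only [mem_insert, mem_union, mem_singleton]; tauto
      rw [h8]; exact hA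
  obtain ⟨a, hae, haw⟩ := exists_mem_ne (by rw [he.1]; omega : 1 < e.card) w
  have hee : ∀ z ∈ e, z = w ∨ z = a := by
    intro z hz
    by_contra hcon
    push Not at hcon
    have h1 : ({w, a, z} : Finset V) ⊆ e := by
      intro y hy
      simp only [mem_insert, mem_singleton] at hy
      rcases hy with rfl | rfl | rfl <;> assumption
    have h2 := card_le_card h1
    rw [he.1, card_insert_of_notMem (by simp [haw.symm, hcon.1.symm]),
      card_pair hcon.2.symm] at h2
    omega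
  have hna : ∀ Q' ⊆ S, Q'.card = n - 2 → Disjoint Q Q' → a ∈ f Q' := by
    intro Q' h1 h2 h3
    obtain ⟨z, hz⟩ := cross hint hQ h1 h3 he (hf Q' h1 h2)
    rw [mem_inter] at hz
    rcases hee z hz.1 with rfl | rfl
    · exact absurd hz.2 (hwf Q' h1 h2)
    · exact hz.2
  have hndis : ∀ Q' : Finset V, Q'.card = n - 2 → Disjoint Q Q' → Q' ≠ Q := by
    intro Q' h1 h2 h3
    rw [h3, disjoint_self_iff_empty] at h2
    rw [h2, card_empty] at hQn
    omega
  set R := ((powersetCard (n - 2) S).erase Q).biUnion f with hR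
  have hRm : ∀ Q' ⊆ S, Q'.card = n - 2 → Q' ≠ Q → ∀ z ∈ f Q', z ∈ R := by
    intro Q' h1 h2 h3 z hz
    exact mem_biUnion.2 ⟨Q', mem_erase.2 ⟨h3, mem_powersetCard.2 ⟨h1, h2⟩⟩, hz⟩
  have hwR : w ∉ R := by
    intro h
    obtain ⟨Q', h1, h2⟩ := mem_biUnion.1 h
    have h3 := mem_powersetCard.1 (mem_of_mem_erase h1)
    exact hwf Q' h3.1 h3.2 h2
  have hfe : (powersetCard (n - 2) S).biUnion f ⊆ R ∪ f Q := by
    intro z hz
    obtain ⟨Q', h1, h2⟩ := mem_biUnion.1 hz
    rw [mem_powersetCard] at h1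
    by_cases h3 : Q' = Q
    · subst h3; exact mem_union_right _ h2
    · exact mem_union_left _ (hRm Q' h1.1 h1.2 h3 z h2)
  -- a private point of `f Q`
  obtain ⟨c, hcQ, hcR⟩ : ∃ c ∈ f Q, c ∉ R := by
    by_contra hcon
    push Not at hcon
    have h1 := hmax (fun Q' => if Q' = Q then e else f Q') (by
      intro Q' h1 h2
      by_cases h3 : Q' = Q
      · subst h3; simp only [if_true]; exact he
      · simp only [if_neg h3]; exact hf Q' h1 h2)
    have h2 : insert w ((powersetCard (n - 2) S).biUnion f) ⊆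
        (powersetCard (n - 2) S).biUnion (fun Q' => if Q' = Q then e else f Q') := by
      intro z hz
      rcases mem_insert.1 hz with rfl | hz
      · exact mem_biUnion.2 ⟨Q, mem_powersetCard.2 ⟨hQ, hQn⟩, by simp only [if_true]; exact hwe⟩
      · have h3 : z ∈ R := by
          rcases mem_union.1 (hfe hz) with h4 | h4
          · exact h4
          · exact hcon z h4
        obtain ⟨Q', h4, h5⟩ := mem_biUnion.1 h3
        exact mem_biUnion.2 ⟨Q', mem_of_mem_erase h4, by
          simp only [if_neg (ne_of_mem_erase h4)]; exact h5⟩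
    have h3 := card_le_card h2
    rw [card_insert_of_notMem hw] at h3
    omega
  obtain ⟨Q1, hQ1, hQ1n, hQ1d, -⟩ := other (Q' := Q) hn hSc hQ hQn
  obtain ⟨b, hb⟩ := cross hint hQ hQ1 hQ1d (hf Q hQ hQn) (hf Q1 hQ1 hQ1n)
  rw [mem_inter] at hb
  have hbR : b ∈ R := hRm Q1 hQ1 hQ1n (hndis Q1 hQ1n hQ1d) b hb.2
  have hbc : b ≠ c := by rintro rfl; exact hcR hbR
  have hfQ : ∀ z ∈ f Q, z = b ∨ z = c := by
    intro z hz
    by_contra hcon
    push Not at hcon
    have h1 : ({b, c, z} : Finset V) ⊆ f Q := by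
      intro y hy
      simp only [mem_insert, mem_singleton] at hy
      rcases hy with rfl | rfl | rfl
      · exact hb.1
      · exact hcQ
      · exact hz
    have h2 := card_le_card h1
    rw [(hf Q hQ hQn).1, card_insert_of_notMem (by simp [hbc, hcon.1.symm]),
      card_pair hcon.2.symm] at h2
    omega
  -- the splitting with everything but `a`
  rcases split hn hunif hint hSc hS hchi hQ hQn ((F.biUnion id).erase a) with h | h | h
  · obtain ⟨e1, h1, h2, h3⟩ := h
    obtain ⟨z, hz, hza⟩ := exists_mem_ne (by rw [h1.1]; omega : 1 < e1.card) a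
    exact disjoint_left.1 h2 hz (mem_erase.2 ⟨hza, h3 hz⟩)
  · obtain ⟨w', h1, h2, h3⟩ := h
    have h4 := keyw hint hQ h2 h3 he
    have h5 := keyw hint hQ h2 h3 (hf Q hQ hQn)
    rcases hee w' h4 with h6 | h6
    · rw [h6] at h5
      exact hwf Q hQ hQn h5
    · exact (ne_of_mem_erase h1) h6
  · obtain ⟨Q', hQ', hQ'n, hd, e', he', heY⟩ := h
    have hae' : a ∉ e' := fun h => (ne_of_mem_erase (heY h)) rfl
    have hwe' : w ∈ e' := by
      obtain ⟨z, hz⟩ := cross hint hQ hQ' hd he he'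
      rw [mem_inter] at hz
      rcases hee z hz.1 with rfl | rfl
      · exact hz.2
      · exact absurd hz.2 hae'
    by_cases hba : b = a
    · have hce' : c ∈ e' := by
        obtain ⟨z, hz⟩ := cross hint hQ hQ' hd (hf Q hQ hQn) he'
        rw [mem_inter] at hz
        rcases hfQ z hz.1 with h6 | h6
        · exact absurd hz.2 (by rw [h6, hba]; exact hae')
        · rw [← h6]; exact hz.2
      have hee' : ∀ z ∈ e', z = w ∨ z = c := by
        intro z hz
        by_contra hcon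
        push Not at hcon
        have hwc : w ≠ c := by rintro rfl; exact hwf Q hQ hQn hcQ
        have h1 : ({w, c, z} : Finset V) ⊆ e' := by
          intro y hy
          simp only [mem_insert, mem_singleton] at hy
          rcases hy with rfl | rfl | rfl <;> assumption
        have h2 := card_le_card h1
        rw [he'.1, card_insert_of_notMem (by simp [hwc, hcon.1.symm]),
          card_pair hcon.2.symm] at h2
        omega
      obtain ⟨Q2, hQ2, hQ2n, hQ2d, hQ2Q⟩ := other (Q' := Q) hn hSc hQ' hQ'n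
      obtain ⟨z, hz⟩ := cross hint hQ' hQ2 hQ2d he' (hf Q2 hQ2 hQ2n)
      rw [mem_inter] at hz
      rcases hee' z hz.1 with h6 | h6
      · rw [h6] at hz; exact hwf Q2 hQ2 hQ2n hz.2
      · rw [h6] at hz; exact hcR (hRm Q2 hQ2 hQ2n hQ2Q c hz.2)
    · -- every neighbour has `f = {a, b}`
      have hnb : ∀ Q2 ⊆ S, Q2.card = n - 2 → Disjoint Q Q2 → b ∈ f Q2 := by
        intro Q2 h1 h2 h3
        obtain ⟨z, hz⟩ := cross hint hQ h1 h3 (hf Q hQ hQn) (hf Q2 h1 h2)
        rw [mem_inter] at hz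
        rcases hfQ z hz.1 with h6 | h6
        · rw [← h6]; exact hz.2
        · exact absurd (hRm Q2 h1 h2 (hndis Q2 h2 h3) z hz.2) (by rw [h6]; exact hcR)
      have hfab : ∀ Q2 ⊆ S, Q2.card = n - 2 → Disjoint Q Q2 → ∀ z ∈ f Q2, z = a ∨ z = b := by
        intro Q2 h1 h2 h3 z hz
        by_contra hcon
        push Not at hcon
        have h4 : ({a, b, z} : Finset V) ⊆ f Q2 := by
          intro y hy
          simp only [mem_insert, mem_singleton] at hy
          rcases hy with rfl | rfl | rfl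
          · exact hna Q2 h1 h2 h3
          · exact hnb Q2 h1 h2 h3
          · exact hz
        have h5 := card_le_card h4
        rw [(hf Q2 h1 h2).1, card_insert_of_notMem (by simp [Ne.symm hba, hcon.1.symm]),
          card_pair hcon.2.symm] at h5
        omega
      obtain ⟨Q2, hQ2, hQ2n, hQ2d, hQ2Q⟩ := other (Q' := Q') hn hSc hQ hQn
      have h1 := hmax (fun Q3 => if Q3 = Q' then e' else f Q3) (by
        intro Q3 h1 h2
        by_cases h3 : Q3 = Q'
        · subst h3; simp only [if_true]; exact he'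
        · simp only [if_neg h3]; exact hf Q3 h1 h2)
      have h2 : insert w ((powersetCard (n - 2) S).biUnion f) ⊆
          (powersetCard (n - 2) S).biUnion (fun Q3 => if Q3 = Q' then e' else f Q3) := by
        intro z hz
        rcases mem_insert.1 hz with rfl | hz
        · exact mem_biUnion.2 ⟨Q', mem_powersetCard.2 ⟨hQ', hQ'n⟩, by
            simp only [if_true]; exact hwe'⟩
        · obtain ⟨Q3, h4, h5⟩ := mem_biUnion.1 hz
          by_cases h6 : Q3 = Q'
          · subst h6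
            refine mem_biUnion.2 ⟨Q2, mem_powersetCard.2 ⟨hQ2, hQ2n⟩, ?_⟩
            simp only [if_neg hQ2Q]
            rcases hfab Q3 hQ' hQ'n hd z h5 with h7 | h7
            · rw [h7]; exact hna Q2 hQ2 hQ2n hQ2d
            · rw [h7]; exact hnb Q2 hQ2 hQ2n hQ2d
          · exact mem_biUnion.2 ⟨Q3, h4, by simp only [if_neg h6]; exact h5⟩
      have h3 := card_le_card h2
      rw [card_insert_of_notMem hw] at h3
      omega

theorem main {n : ℕ} (hn : 3 ≤ n) {F : Finset (Finset V)} {S : Finset V}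
    (hunif : ∀ A ∈ F, A.card = n)
    (hint : ∀ A ∈ F, ∀ B ∈ F, (A ∩ B).Nonempty) (hSc : S.card = 2 * n - 3)
    (hS : ∀ A ⊆ S, A.card = n → A ∈ F)
    (hchi : ∀ X : Finset V, ∃ A ∈ F, A ⊆ X ∨ Disjoint A X) :
    (F.biUnion id).card ≤ (2 * n - 3).choose (n - 2) + (2 * n - 2) := by
  classical
  have hex : ∀ Q : Finset V, ∃ e, Q ⊆ S → Q.card = n - 2 → L F S Q e := by
    intro Q
    by_cases h : Q ⊆ S ∧ Q.card = n - 2
    · rcases split hn hunif hint hSc hS hchi h.1 h.2 ∅ with h1 | h1 | h1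
      · obtain ⟨e, h1, -⟩ := h1
        exact ⟨e, fun _ _ => h1⟩
      · obtain ⟨w, h1, -⟩ := h1
        exact absurd h1 (notMem_empty w)
      · obtain ⟨Q', -, -, -, e', h1, h2⟩ := h1
        rw [subset_empty.1 h2] at h1
        have := h1.1
        simp at this
    · exact ⟨∅, fun h1 h2 => absurd ⟨h1, h2⟩ h⟩
  choose f0 hf0 using hex
  have hbound : ∀ g : Finset V → Finset V, (∀ Q ⊆ S, Q.card = n - 2 → L F S Q (g Q)) →
      ((powersetCard (n - 2) S).biUnion g).card ≤ (F.biUnion id).card := by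
    intro g hg
    apply card_le_card
    intro z hz
    obtain ⟨Q, h1, h2⟩ := mem_biUnion.1 hz
    rw [mem_powersetCard] at h1
    exact mem_biUnion.2 ⟨_, (hg Q h1.1 h1.2).2.2, mem_union_right _ h2⟩
  have hne : {k : ℕ | ∃ g : Finset V → Finset V, (∀ Q ⊆ S, Q.card = n - 2 → L F S Q (g Q)) ∧
      k = (F.biUnion id).card - ((powersetCard (n - 2) S).biUnion g).card}.Nonempty :=
    ⟨_, f0, fun Q h1 h2 => hf0 Q h1 h2, rfl⟩
  obtain ⟨f, hf, hfk⟩ := Nat.sInf_mem hne
  have hmax : ∀ g : Finset V → Finset V, (∀ Q ⊆ S, Q.card = n - 2 → L F S Q (g Q)) →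
      ((powersetCard (n - 2) S).biUnion g).card ≤ ((powersetCard (n - 2) S).biUnion f).card := by
    intro g hg
    have h1 := Nat.sInf_le (show (F.biUnion id).card - ((powersetCard (n - 2) S).biUnion g).card ∈
      {k : ℕ | ∃ g : Finset V → Finset V, (∀ Q ⊆ S, Q.card = n - 2 → L F S Q (g Q)) ∧
      k = (F.biUnion id).card - ((powersetCard (n - 2) S).biUnion g).card} from ⟨g, hg, rfl⟩)
    rw [hfk] at h1
    have h2 := hbound g hg
    have h3 := hbound f hf
    omega
  have hsub : F.biUnion id ⊆ S ∪ (powersetCard (n - 2) S).biUnion f := by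
    intro w hw
    by_cases hwS : w ∈ S
    · exact mem_union_left _ hwS
    · exact mem_union_right _ (cover hn hunif hint hSc hS hchi f hf hmax hw hwS)
  have h1 := (card_le_card hsub).trans (card_union_le _ _)
  have h2 := tree hn hSc f (fun Q h1 h2 => (hf Q h1 h2).1)
    (fun Q h1 h2 Q' h3 h4 h5 => cross hint h1 h3 h5 (hf Q h1 h2) (hf Q' h3 h4))
  rw [card_powersetCard, hSc] at h2
  omega

end Pool.Agent.Helper454.EL2
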