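import Pool.Agent.Helper454.EL.Greatest
import Pool.Agent.Helper454.EL.Core

set_option autoImplicit false

open Finset

namespace Pool.Agent.Helper454.EL

theorem lower_gen {n : ℕ} (hn : 2 ≤ n) {F : Finset (Finset ℕ)} (hunif : ∀ e ∈ F, e.card = n)
    (hchi : ∀ S : Finset ℕ, ∃ A ∈ F, A ⊆ S ∨ Disjoint A S) : 2 * n - 1 ≤ (F.biUnion id).card := by
  by_contra hcon
  push Not at hcon
  obtain ⟨S, hS, hSc⟩ := exists_subset_card_eq (s := F.biUnion id)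
    (n := min (n - 1) (F.biUnion id).card) (min_le_right _ _)
  obtain ⟨A, hA, h⟩ := hchi S
  have hAn := hunif A hA
  have hAU : A ⊆ F.biUnion id := fun z hz => mem_biUnion.2 ⟨A, hA, hz⟩
  rcases h with h | h
  · have := card_le_card h
    omega
  · have h1 : A ⊆ F.biUnion id \ S := fun z hz =>
      mem_sdiff.2 ⟨hAU hz, fun h2 => disjoint_left.1 h hz h2⟩
    have h2 := card_le_card h1
    rw [card_sdiff_of_subset hS] at h2
    omega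

theorem half_choose' {n : ℕ} (hn : 2 ≤ n) :
    (2 * n - 2).choose (n - 1) / 2 = (2 * n - 3).choose (n - 2) := by
  have := half_choose hn
  omega

/-- the vertex numbers of the cliques containing all `n`-subsets of a `(2n-3)`-set -/
theorem spectrum_core (n : ℕ) (hn : 3 ≤ n) :
    {m : ℕ | ∃ F : Finset (Finset ℕ),
      (∀ e ∈ F, e.card = n) ∧
      (∀ e ∈ F, ∀ f ∈ F, (e ∩ f).Nonempty) ∧
      (¬ ∃ c : ℕ → Fin 2, ∀ e ∈ F, ∃ x ∈ e, ∃ y ∈ e, c x ≠ c y) ∧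
      (∃ c : ℕ → Fin 3, ∀ e ∈ F, ∃ x ∈ e, ∃ y ∈ e, c x ≠ c y) ∧
      (∃ S : Finset ℕ, S.card = 2 * n - 3 ∧ ∀ A ⊆ S, A.card = n → A ∈ F) ∧
      m = (F.biUnion id).card} =
    {m : ℕ | 2 * n - 1 ≤ m ∧ m ≤ (2 * n - 2).choose (n - 1) / 2 + (2 * n - 2)} := by
  have h4 := half_choose' (n := n) (by omega)
  ext m
  simp only [Set.mem_ofPred_eq]
  constructor
  · rintro ⟨F, h1, h2, h3, -, ⟨S, hS, hSF⟩, rfl⟩
    have hchi := hchi_of (n := n) h3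
    refine ⟨lower_gen (by omega) h1 hchi, ?_⟩
    rw [h4]
    exact Pool.Agent.Helper454.EL2.main hn h1 h2 hS hSF hchi
  · rintro ⟨h2, h3⟩
    obtain ⟨F, hF1, hF2, hF3, -, hF5, hF6⟩ :=
      construct (n := n) (by omega) (k := m - (2 * n - 2)) (by omega) (by omega)
    refine ⟨F, hF1, hF2, hF3, three_col (by omega) F hF1 hF2, ⟨range (2 * n - 3), card_range _, ?_⟩,
      by omega⟩
    intro A hA hAn
    refine hF6 A (hA.trans ?_) hAn
    intro z hz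
    rw [mem_range] at hz ⊢
    omega

theorem greatest_both (n : ℕ) (hn : 3 ≤ n) :
    IsGreatest {m : ℕ | ∃ F : Finset (Finset ℕ),
      (∀ e ∈ F, e.card = n) ∧
      (∀ e ∈ F, ∀ f ∈ F, (e ∩ f).Nonempty) ∧
      (¬ ∃ c : ℕ → Fin 2, ∀ e ∈ F, ∃ x ∈ e, ∃ y ∈ e, c x ≠ c y) ∧
      (∃ c : ℕ → Fin 3, ∀ e ∈ F, ∃ x ∈ e, ∃ y ∈ e, c x ≠ c y) ∧
      ((∃ c : ℕ → Fin (2 * n - 1), ∀ e ∈ F, ∀ x ∈ e, ∀ y ∈ e, c x = c y → x = y) ∨
        (∃ S : Finset ℕ, S.card = 2 * n - 3 ∧ ∀ A ⊆ S, A.card = n → A ∈ F)) ∧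
      m = (F.biUnion id).card}
      ((2 * n - 2).choose (n - 1) / 2 + (2 * n - 2)) := by
  have h := greatest n (by omega)
  have hc := spectrum_core n hn
  constructor
  · obtain ⟨F, h1, h2, h3, h4, h5, h6⟩ := h.1
    exact ⟨F, h1, h2, h3, h4, Or.inl h5, h6⟩
  · rintro m ⟨F, h1, h2, h3, h4, h5 | h5, h6⟩
    · exact h.2 ⟨F, h1, h2, h3, h4, h5, h6⟩
    · have hm : m ∈ {m : ℕ | 2 * n - 1 ≤ m ∧ m ≤ (2 * n - 2).choose (n - 1) / 2 + (2 * n - 2)} := by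
        rw [← hc]
        exact ⟨F, h1, h2, h3, h4, h5, h6⟩
      exact hm.2

end Pool.Agent.Helper454.EL
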