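import Pool.Agent.Helper454.EL.Spectrum

set_option autoImplicit false

open Finset

namespace Pool.Agent.Helper454.EL

theorem cb_double (m : ℕ) : 2 * m.centralBinom ≤ (m + 1).centralBinom := by
  have h1 := Nat.succ_mul_centralBinom_succ m
  have h2 : (m + 1) * (2 * m.centralBinom) ≤ (m + 1) * (m + 1).centralBinom := by
    rw [h1]
    nlinarith [Nat.zero_le (m * m.centralBinom)]
  exact Nat.le_of_mul_le_mul_left h2 (Nat.succ_pos m)

theorem cb_three (m : ℕ) (hm : 3 ≤ m) : 3 * (m + 1) ≤ m.centralBinom := by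
  induction m, hm using Nat.le_induction with
  | base => decide
  | succ m hm ih =>
    have := cb_double m
    omega

theorem half_cb (m : ℕ) : (m + 1).centralBinom = 2 * ((2 * m + 1) * catalan m) := by
  have h1 := Nat.succ_mul_centralBinom_succ m
  have h2 := succ_mul_catalan_eq_centralBinom m
  have h3 : (m + 1) * (m + 1).centralBinom = (m + 1) * (2 * ((2 * m + 1) * catalan m)) := by
    rw [h1, ← h2]; ring
  exact Nat.eq_of_mul_eq_mul_left (Nat.succ_pos m) h3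

theorem compare (n : ℕ) (hn : 4 ≤ n) :
    (2 * n - 2).choose (n - 1) / 2 + (2 * n - 2) ≤ 2 * (2 * n - 4).choose (n - 2) + 2 * n - 4 ∧
    (5 ≤ n →
      (2 * n - 2).choose (n - 1) / 2 + (2 * n - 2) < 2 * (2 * n - 4).choose (n - 2) + 2 * n - 4) := by
  obtain ⟨m, rfl⟩ : ∃ m, n = m + 2 := ⟨n - 2, by omega⟩
  have e1 : (2 * (m + 2) - 2).choose (m + 2 - 1) = (m + 1).centralBinom := by
    rw [Nat.centralBinom]; congr 1
  have e2 : (2 * (m + 2) - 4).choose (m + 2 - 2) = m.centralBinom := by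
    rw [Nat.centralBinom]; congr 1
  have h1 := half_cb m
  have h2 := succ_mul_catalan_eq_centralBinom m
  rw [e1, e2, h1, Nat.mul_div_cancel_left _ (by norm_num), ← h2]
  have h3 : 2 * ((m + 1) * catalan m) = (2 * m + 1) * catalan m + catalan m := by ring
  rw [h3]
  have h4 : 3 ≤ m → 3 ≤ catalan m := by
    intro hm
    have h5 := cb_three m hm
    rw [← h2, mul_comm] at h5
    exact Nat.le_of_mul_le_mul_left h5 (Nat.succ_pos m)
  rcases Nat.lt_or_ge m 3 with h | h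
  · have : m = 2 := by omega
    subst this
    rw [catalan_two]
    omega
  · have := h4 h
    omega

theorem greatest (n : ℕ) (hn : 2 ≤ n) :
    IsGreatest {m : ℕ | ∃ F : Finset (Finset ℕ),
      (∀ e ∈ F, e.card = n) ∧
      (∀ e ∈ F, ∀ f ∈ F, (e ∩ f).Nonempty) ∧
      (¬ ∃ c : ℕ → Fin 2, ∀ e ∈ F, ∃ x ∈ e, ∃ y ∈ e, c x ≠ c y) ∧
      (∃ c : ℕ → Fin 3, ∀ e ∈ F, ∃ x ∈ e, ∃ y ∈ e, c x ≠ c y) ∧
      (∃ c : ℕ → Fin (2 * n - 1), ∀ e ∈ F, ∀ x ∈ e, ∀ y ∈ e, c x = c y → x = y) ∧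
      m = (F.biUnion id).card}
      ((2 * n - 2).choose (n - 1) / 2 + (2 * n - 2)) := by
  have h := spectrum n hn
  constructor
  · have hmem : ((2 * n - 1).choose n, (2 * n - 2).choose (n - 1) / 2 + (2 * n - 2)) ∈
        {p : ℕ × ℕ | p.1 = (2 * n - 1).choose n ∧ 2 * n - 1 ≤ p.2 ∧
          p.2 ≤ (2 * n - 2).choose (n - 1) / 2 + (2 * n - 2)} := by
      refine ⟨rfl, ?_, le_refl _⟩
      have h4 := half_choose hn
      have h5 : 0 < (2 * n - 3).choose (n - 2) := Nat.choose_pos (by omega)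
      show 2 * n - 1 ≤ (2 * n - 2).choose (n - 1) / 2 + (2 * n - 2)
      omega
    rw [← h] at hmem
    obtain ⟨F, h1, h2, h3, h4, h5, h6⟩ := hmem
    exact ⟨F, h1, h2, h3, h4, h5, (Prod.ext_iff.1 h6).2⟩
  · rintro m ⟨F, h1, h2, h3, h4, h5, rfl⟩
    have hmem : (F.card, (F.biUnion id).card) ∈
        {p : ℕ × ℕ | p.1 = (2 * n - 1).choose n ∧ 2 * n - 1 ≤ p.2 ∧
          p.2 ≤ (2 * n - 2).choose (n - 1) / 2 + (2 * n - 2)} := by
      rw [← h]
      exact ⟨F, h1, h2, h3, h4, h5, rfl⟩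
    exact hmem.2.2

end Pool.Agent.Helper454.EL
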