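import Mathlib

set_option autoImplicit false
set_option linter.unusedSectionVars false
set_option linter.unusedVariables false

open Finset

namespace Pool.Agent.Helper454.EL

variable {κ : Type} [Fintype κ] [DecidableEq κ]

/-- the pairing on the sets of size `n`: do they meet in exactly one point? -/
def M (n : ℕ) (C C' : Finset κ) : ZMod 2 :=
  if C.card = n ∧ C'.card = n ∧ (C ∩ C').card = 1 then 1 else 0

theorem M_symm (n : ℕ) (C C' : Finset κ) : M n C C' = M n C' C := by
  unfold M
  rw [inter_comm]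
  congr 1
  apply propext
  tauto

theorem add_self2 (a : ZMod 2) : a + a = 0 := by
  revert a; decide

theorem mul_self2 (a : ZMod 2) : a * a = a := by
  revert a; decide

/-- cocycles -/
def Z (κ : Type) [Fintype κ] [DecidableEq κ] (n : ℕ) : Submodule (ZMod 2) (Finset κ → ZMod 2) where
  carrier := {y | (∀ C, C.card ≠ n → y C = 0) ∧ ∀ D, D.card = n + 1 → ∑ d ∈ D, y (D.erase d) = 0}
  add_mem' := by
    rintro y z ⟨h1, h2⟩ ⟨h3, h4⟩
    refine ⟨fun C hC => ?_, fun D hD => ?_⟩
    · simp [h1 C hC, h3 C hC]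
    · simp [sum_add_distrib, h2 D hD, h4 D hD]
  zero_mem' := by simp
  smul_mem' := by
    rintro c y ⟨h1, h2⟩
    refine ⟨fun C hC => ?_, fun D hD => ?_⟩
    · simp [h1 C hC]
    · have := h2 D hD
      simp only [Pi.smul_apply, smul_eq_mul, ← mul_sum, this, mul_zero]

/-- complement through `x` -/
def st (x : κ) (C : Finset κ) : Finset κ := insert x Cᶜ

theorem mem_st (x : κ) (C : Finset κ) : x ∈ st x C := mem_insert_self _ _

theorem st_card {n : ℕ} (hκ : Fintype.card κ + 1 = 2 * n) {x : κ} {C : Finset κ} (hx : x ∈ C)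
    (hC : C.card = n) : (st x C).card = n := by
  unfold st
  rw [card_insert_of_notMem (by simpa using hx), card_compl]
  omega

theorem st_st {x : κ} {C : Finset κ} (hx : x ∈ C) : st x (st x C) = C := by
  ext a
  by_cases ha : a = x
  · subst ha; simp [st, hx]
  · simp [st, ha]

theorem M_eq {n : ℕ} (hκ : Fintype.card κ + 1 = 2 * n) {x : κ} {C C' : Finset κ} (hx : x ∈ C)
    (hx' : x ∈ C') (hC : C.card = n) (hC' : C'.card = n) :
    M n C C' = if C' = st x C then 1 else 0 := by
  unfold M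
  congr 1
  apply propext
  constructor
  · rintro ⟨-, -, h⟩
    obtain ⟨a, ha⟩ := card_eq_one.1 h
    have hax : a = x := by
      have : x ∈ C ∩ C' := mem_inter.2 ⟨hx, hx'⟩
      rw [ha] at this
      exact (mem_singleton.1 this).symm
    subst hax
    apply eq_of_subset_of_card_le
    · intro b hb
      by_cases hba : b = a
      · subst hba; exact mem_st _ _
      · refine mem_insert_of_mem ?_
        rw [mem_compl]
        intro hbC
        have : b ∈ C ∩ C' := mem_inter.2 ⟨hbC, hb⟩
        rw [ha] at this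
        exact hba (mem_singleton.1 this)
    · rw [st_card hκ hx hC, hC']
  · intro h
    refine ⟨hC, hC', ?_⟩
    rw [h]
    have : C ∩ st x C = {x} := by
      ext b
      simp only [st, mem_inter, mem_insert, mem_compl, mem_singleton]
      constructor
      · rintro ⟨h1, h2 | h2⟩
        · exact h2
        · exact absurd h1 h2
      · rintro rfl
        exact ⟨hx, Or.inl rfl⟩
    rw [this, card_singleton]

theorem col_mem {n : ℕ} (hκ : Fintype.card κ + 1 = 2 * n) (C' : Finset κ) :
    (fun C => M n C C') ∈ Z κ n := by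
  refine ⟨fun C hC => ?_, fun D hD => ?_⟩
  · simp [M, hC]
  · by_cases hC' : C'.card = n
    · have hk : 2 ≤ (D ∩ C').card := by
        have h1 := card_inter_add_card_union D C'
        have h2 : (D ∪ C').card ≤ Fintype.card κ := card_le_univ _
        omega
      by_cases h2 : (D ∩ C').card = 2
      · have h3 : ∑ d ∈ D, M n (D.erase d) C' = ∑ d ∈ D, if d ∈ C' then (1 : ZMod 2) else 0 := by
          refine sum_congr rfl fun d hd => ?_
          unfold M
          by_cases hdC : d ∈ C'
          · have : (D.erase d ∩ C').card = 1 := by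
              rw [erase_inter, card_erase_of_mem (mem_inter.2 ⟨hd, hdC⟩), h2]
            have h5 : (D.erase d).card = n := by rw [card_erase_of_mem hd, hD]; simp
            rw [if_pos ⟨h5, hC', this⟩, if_pos hdC]
          · have : (D.erase d ∩ C').card = 2 := by
              rw [erase_inter, erase_eq_of_notMem (by simp [hdC]), h2]
            rw [if_neg (by rw [this]; simp), if_neg hdC]
        rw [h3, ← sum_filter]
        simp only [sum_const, nsmul_eq_mul, mul_one]
        have h4 : D.filter (fun d => d ∈ C') = D ∩ C' := by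
          ext; simp
        rw [h4, h2]
        decide
      · refine sum_eq_zero fun d hd => ?_
        unfold M
        have : (D.erase d ∩ C').card ≠ 1 := by
          rw [erase_inter]
          by_cases hdC : d ∈ C'
          · rw [card_erase_of_mem (mem_inter.2 ⟨hd, hdC⟩)]
            omega
          · rw [erase_eq_of_notMem (by simp [hdC])]
            omega
        exact if_neg fun h => this h.2.2
    · simp [M, hC']

theorem rel {n : ℕ} {y : Finset κ → ZMod 2} (hy : y ∈ Z κ n) {x : κ} {C : Finset κ} (hx : x ∉ C)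
    (hC : C.card = n) : y C = ∑ a ∈ C, y ((insert x C).erase a) := by
  have h := hy.2 (insert x C) (by rw [card_insert_of_notMem hx, hC])
  rw [sum_insert hx, erase_insert hx] at h
  have h2 := add_self2 (∑ a ∈ C, y ((insert x C).erase a))
  calc y C = y C + (∑ a ∈ C, y ((insert x C).erase a) + ∑ a ∈ C, y ((insert x C).erase a)) := by
        rw [h2, add_zero]
    _ = (y C + ∑ a ∈ C, y ((insert x C).erase a)) + ∑ a ∈ C, y ((insert x C).erase a) := by ring
    _ = _ := by rw [h, zero_add]

theorem up {n : ℕ} {y z : Finset κ → ZMod 2} (hy : y ∈ Z κ n) (hz : z ∈ Z κ n) (x : κ)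
    (h : ∀ C : Finset κ, C.card = n → x ∈ C → y C = z C) : y = z := by
  funext C
  by_cases hC : C.card = n
  · by_cases hx : x ∈ C
    · exact h C hC hx
    · rw [rel hy hx hC, rel hz hx hC]
      refine sum_congr rfl fun a ha => ?_
      have hax : a ≠ x := by rintro rfl; exact hx ha
      apply h
      · rw [card_erase_of_mem (mem_insert_of_mem ha), card_insert_of_notMem hx, hC]; simp
      · exact mem_erase.2 ⟨hax.symm, mem_insert_self _ _⟩
  · rw [hy.1 C hC, hz.1 C hC]

/-- the sets of size `n` through `x` -/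
def Fx (n : ℕ) (x : κ) : Finset (Finset κ) := univ.filter fun C => C.card = n ∧ x ∈ C

theorem mem_Fx {n : ℕ} {x : κ} {C : Finset κ} : C ∈ Fx n x ↔ C.card = n ∧ x ∈ C := by
  simp [Fx]

theorem sum_st {n : ℕ} (hκ : Fintype.card κ + 1 = 2 * n) (x : κ) (f : Finset κ → ZMod 2) :
    ∑ C ∈ Fx n x, f (st x C) = ∑ C ∈ Fx n x, f C := by
  refine sum_bij' (fun C _ => st x C) (fun C _ => st x C) ?_ ?_ ?_ ?_ ?_
  · intro C hC
    rw [mem_Fx] at hC ⊢
    exact ⟨st_card hκ hC.2 hC.1, mem_st _ _⟩
  · intro C hC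
    rw [mem_Fx] at hC ⊢
    exact ⟨st_card hκ hC.2 hC.1, mem_st _ _⟩
  · intro C hC
    exact st_st (mem_Fx.1 hC).2
  · intro C hC
    exact st_st (mem_Fx.1 hC).2
  · intro C hC
    rfl

/-- the operator -/
def T (n : ℕ) (x : κ) (φ : Finset κ → ZMod 2) :
    (Finset κ → ZMod 2) →ₗ[ZMod 2] (Finset κ → ZMod 2) where
  toFun y := fun C' => ∑ C ∈ Fx n x, φ C * y (st x C) * M n C' C
  map_add' y z := by
    funext C'
    simp only [Pi.add_apply, ← sum_add_distrib]
    refine sum_congr rfl fun C _ => by ring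
  map_smul' c y := by
    funext C'
    simp only [Pi.smul_apply, smul_eq_mul, RingHom.id_apply, mul_sum]
    refine sum_congr rfl fun C _ => by ring

theorem T_apply (n : ℕ) (x : κ) (φ y : Finset κ → ZMod 2) (C' : Finset κ) :
    T n x φ y C' = ∑ C ∈ Fx n x, φ C * y (st x C) * M n C' C := rfl

theorem T_mem {n : ℕ} (hκ : Fintype.card κ + 1 = 2 * n) (x : κ) (φ y : Finset κ → ZMod 2) :
    T n x φ y ∈ Z κ n := by
  have : T n x φ y = ∑ C ∈ Fx n x, (φ C * y (st x C)) • (fun C' => M n C' C) := by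
    funext C'
    simp [T_apply, Finset.sum_apply]
  rw [this]
  exact Submodule.sum_mem _ fun C _ => Submodule.smul_mem _ _ (col_mem hκ C)

theorem T_eval {n : ℕ} (hκ : Fintype.card κ + 1 = 2 * n) {x : κ} {φ : Finset κ → ZMod 2}
    (hφ : ∀ C : Finset κ, C.card = n → x ∈ C → φ (st x C) = φ C) (y : Finset κ → ZMod 2)
    {C' : Finset κ} (hC' : C'.card = n) (hx : x ∈ C') : T n x φ y C' = φ C' * y C' := by
  rw [T_apply, sum_eq_single (st x C')]
  · rw [M_eq hκ hx (mem_st _ _) hC' (st_card hκ hx hC'), st_st hx, hφ C' hC' hx]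
    simp
  · intro C hC hne
    rw [mem_Fx] at hC
    rw [M_eq hκ hx hC.2 hC' hC.1]
    simp [hne]
  · intro h
    exact absurd (mem_Fx.2 ⟨st_card hκ hx hC', mem_st _ _⟩) h

theorem T_one {n : ℕ} (hκ : Fintype.card κ + 1 = 2 * n) (x : κ) {y : Finset κ → ZMod 2}
    (hy : y ∈ Z κ n) : T n x 1 y = y := by
  refine up (T_mem hκ x 1 y) hy x fun C hC hx => ?_
  rw [T_eval hκ (by simp) y hC hx]
  simp

theorem T_comm {n : ℕ} (hκ : Fintype.card κ + 1 = 2 * n) {x t : κ} (hxt : x ≠ t)
    {φ ψ : Finset κ → ZMod 2}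
    (hφ : ∀ C : Finset κ, C.card = n → x ∈ C → φ (st x C) = φ C)
    (hψ : ∀ C : Finset κ, C.card = n → t ∈ C → ψ (st t C) = ψ C)
    (hφ0 : ∀ C : Finset κ, x ∉ C → φ C = 0) (hψ0 : ∀ C : Finset κ, t ∉ C → ψ C = 0)
    (hex : ∀ D : Finset κ, D.card = n + 1 → ∀ a ∈ D, x ∈ D → t ∈ D → a ≠ x → a ≠ t →
      (φ (D.erase a) + φ (D.erase t)) * (ψ (D.erase a) + ψ (D.erase x)) = 0)
    {y : Finset κ → ZMod 2} (hy : y ∈ Z κ n) :
    T n x φ (T n t ψ y) = T n t ψ (T n x φ y) := by
  refine up (T_mem hκ _ _ _) (T_mem hκ _ _ _) x fun C hC hx => ?_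
  rw [T_eval hκ hφ _ hC hx]
  by_cases ht : t ∈ C
  · rw [T_eval hκ hψ _ hC ht, T_eval hκ hψ _ hC ht, T_eval hκ hφ _ hC hx]
    ring
  · have hD : (insert t C).card = n + 1 := by rw [card_insert_of_notMem ht, hC]
    have hcard : ∀ a ∈ insert t C, ((insert t C).erase a).card = n := by
      intro a ha
      rw [card_erase_of_mem ha, hD]; simp
    have hCD : (insert t C).erase t = C := erase_insert ht
    have hxD : x ∈ insert t C := mem_insert_of_mem hx
    have htD : t ∈ insert t C := mem_insert_self _ _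
    have e1 : ∀ w : Finset κ → ZMod 2, T n t ψ w C =
        ∑ a ∈ C, ψ ((insert t C).erase a) * w ((insert t C).erase a) := by
      intro w
      rw [rel (T_mem hκ t ψ w) ht hC]
      refine sum_congr rfl fun a ha => ?_
      have hat : t ≠ a := by rintro rfl; exact ht ha
      exact T_eval hκ hψ _ (hcard a (mem_insert_of_mem ha)) (mem_erase.2 ⟨hat, htD⟩)
    have e3 : ∀ w : Finset κ → ZMod 2, T n t ψ w C =
        ∑ a ∈ insert t C, ψ ((insert t C).erase a) * w ((insert t C).erase a) := by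
      intro w
      rw [e1 w, sum_insert ht, hψ0 _ (by simp), zero_mul, zero_add]
    rw [e3, e3]
    have hY := hy.2 (insert t C) hD
    have hpx : φ ((insert t C).erase x) = 0 := hφ0 _ (by simp)
    have hqt : ψ ((insert t C).erase t) = 0 := hψ0 _ (by simp)
    have e4 : ∀ a ∈ (insert t C).erase x, T n x φ y ((insert t C).erase a) =
        φ ((insert t C).erase a) * y ((insert t C).erase a) := by
      intro a ha
      refine T_eval hκ hφ _ (hcard a (mem_of_mem_erase ha)) ?_
      exact mem_erase.2 ⟨(ne_of_mem_erase ha).symm, hxD⟩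
    have e5 : T n x φ y ((insert t C).erase x) =
        ∑ a ∈ insert t C, φ ((insert t C).erase a) * y ((insert t C).erase a) := by
      have h1 := (T_mem hκ x φ y).2 (insert t C) hD
      rw [← add_sum_erase _ _ hxD] at h1
      rw [← add_sum_erase _ _ hxD, hpx, zero_mul, zero_add, ← sum_congr rfl e4]
      exact eq_of_sub_eq_zero (by rw [← h1, CharTwo.sub_eq_add])
    have e6 : ∀ a ∈ insert t C,
        (φ ((insert t C).erase a) + φ ((insert t C).erase t)) *
        (ψ ((insert t C).erase a) + ψ ((insert t C).erase x)) = 0 := by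
      intro a ha
      by_cases hax : a = x
      · subst hax
        rw [add_self2 (ψ _), mul_zero]
      · by_cases hat : a = t
        · subst hat
          rw [add_self2 (φ _), zero_mul]
        · exact hex _ hD a ha hxD htD hax hat
    rw [← add_sum_erase (insert t C) (fun a => ψ ((insert t C).erase a) * T n x φ y ((insert t C).erase a)) hxD, e5]
    have e7 : ∑ a ∈ (insert t C).erase x, ψ ((insert t C).erase a) * T n x φ y ((insert t C).erase a)
        = ∑ a ∈ insert t C, ψ ((insert t C).erase a) *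
          (φ ((insert t C).erase a) * y ((insert t C).erase a)) := by
      rw [← add_sum_erase (insert t C) (fun a => ψ ((insert t C).erase a) *
          (φ ((insert t C).erase a) * y ((insert t C).erase a))) hxD, hpx, zero_mul, mul_zero,
          zero_add]
      exact sum_congr rfl fun a ha => by rw [e4 a ha]
    rw [e7]
    have hφC : φ C = φ ((insert t C).erase t) := by rw [hCD]
    rw [hφC, mul_sum, mul_sum]
    have e8 : ∑ a ∈ insert t C, (φ ((insert t C).erase a) + φ ((insert t C).erase t)) *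
        (ψ ((insert t C).erase a) + ψ ((insert t C).erase x)) * y ((insert t C).erase a) = 0 :=
      sum_eq_zero fun a ha => by rw [e6 a ha, zero_mul]
    have e9 : ∑ a ∈ insert t C, (φ ((insert t C).erase t) * ψ ((insert t C).erase x)) *
        y ((insert t C).erase a) = 0 := by
      rw [← mul_sum, hY, mul_zero]
    refine eq_of_sub_eq_zero ?_
    rw [CharTwo.sub_eq_add, ← e8, ← sum_add_distrib, ← sum_add_distrib]
    rw [← add_zero (∑ a ∈ insert t C, (φ ((insert t C).erase a) + φ ((insert t C).erase t)) *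
        (ψ ((insert t C).erase a) + ψ ((insert t C).erase x)) * y ((insert t C).erase a)), ← e9,
        ← sum_add_distrib]
    refine sum_congr rfl fun a ha => ?_
    linear_combination (-(φ ((insert t C).erase t) * ψ ((insert t C).erase x)) * y ((insert t C).erase a)) * (by decide : (2 : ZMod 2) = 0)

theorem T_idem {n : ℕ} (hκ : Fintype.card κ + 1 = 2 * n) {x : κ} {φ : Finset κ → ZMod 2}
    (hφ : ∀ C : Finset κ, C.card = n → x ∈ C → φ (st x C) = φ C) (y : Finset κ → ZMod 2) :
    T n x φ (T n x φ y) = T n x φ y := by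
  refine up (T_mem hκ _ _ _) (T_mem hκ _ _ _) x fun C hC hx => ?_
  rw [T_eval hκ hφ _ hC hx, T_eval hκ hφ _ hC hx, ← mul_assoc, mul_self2]

theorem T_comm_same {n : ℕ} (hκ : Fintype.card κ + 1 = 2 * n) {x : κ} {φ ψ : Finset κ → ZMod 2}
    (hφ : ∀ C : Finset κ, C.card = n → x ∈ C → φ (st x C) = φ C)
    (hψ : ∀ C : Finset κ, C.card = n → x ∈ C → ψ (st x C) = ψ C) (y : Finset κ → ZMod 2) :
    T n x φ (T n x ψ y) = T n x ψ (T n x φ y) := by
  refine up (T_mem hκ _ _ _) (T_mem hκ _ _ _) x fun C hC hx => ?_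
  rw [T_eval hκ hφ _ hC hx, T_eval hκ hψ _ hC hx, T_eval hκ hψ _ hC hx, T_eval hκ hφ _ hC hx]
  ring

/-- the form -/
def bf (n : ℕ) (x0 : κ) (y y' : Finset κ → ZMod 2) : ZMod 2 :=
  ∑ C ∈ Fx n x0, y (st x0 C) * y' C

theorem bf_symm {n : ℕ} (hκ : Fintype.card κ + 1 = 2 * n) (x0 : κ) (y y' : Finset κ → ZMod 2) :
    bf n x0 y y' = bf n x0 y' y := by
  unfold bf
  rw [← sum_st hκ x0 (fun C => y (st x0 C) * y' C)]
  refine sum_congr rfl fun C hC => ?_
  rw [mem_Fx] at hC
  rw [st_st hC.2, mul_comm]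

theorem bf_T {n : ℕ} (hκ : Fintype.card κ + 1 = 2 * n) (x0 x : κ) (φ y : Finset κ → ZMod 2)
    {y' : Finset κ → ZMod 2} (hy' : y' ∈ Z κ n) :
    bf n x0 (T n x φ y) y' = ∑ C ∈ Fx n x, φ C * y (st x C) * y' C := by
  have h1 : ∀ C2, ∑ C ∈ Fx n x0, M n (st x0 C) C2 * y' C = y' C2 := by
    intro C2
    have h2 := congrFun (T_one hκ x0 hy') C2
    rw [T_apply] at h2
    rw [← h2, ← sum_st hκ x0 (fun C => M n (st x0 C) C2 * y' C)]
    refine sum_congr rfl fun C hC => ?_
    rw [mem_Fx] at hC
    simp only [Pi.one_apply]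
    rw [st_st hC.2, M_symm n C C2]
    ring
  unfold bf
  simp only [T_apply, sum_mul]
  rw [sum_comm]
  refine sum_congr rfl fun C2 _ => ?_
  rw [← h1 C2, mul_sum]
  refine sum_congr rfl fun C _ => ?_
  ring

theorem bf_sa {n : ℕ} (hκ : Fintype.card κ + 1 = 2 * n) (x0 : κ) {x : κ} {φ : Finset κ → ZMod 2}
    (hφ : ∀ C : Finset κ, C.card = n → x ∈ C → φ (st x C) = φ C)
    {y y' : Finset κ → ZMod 2} (hy : y ∈ Z κ n) (hy' : y' ∈ Z κ n) :
    bf n x0 (T n x φ y) y' = bf n x0 y (T n x φ y') := by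
  rw [bf_symm hκ x0 y, bf_T hκ x0 x φ y hy', bf_T hκ x0 x φ y' hy,
    ← sum_st hκ x (fun C => φ C * y (st x C) * y' C)]
  refine sum_congr rfl fun C hC => ?_
  rw [mem_Fx] at hC
  rw [st_st hC.2, hφ C hC.1 hC.2]
  ring

theorem bf_alt {n : ℕ} (hκ : Fintype.card κ + 1 = 2 * n) (hn : 2 ≤ n) (x0 : κ)
    (y : Finset κ → ZMod 2) : bf n x0 y y = 0 := by
  unfold bf
  refine sum_involution (fun C _ => st x0 C) ?_ ?_ ?_ ?_
  · intro C hC
    rw [st_st (mem_Fx.1 hC).2, mul_comm (y C), add_self2]
  · intro C hC _ heq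
    rw [mem_Fx] at hC
    have h1 : (C.erase x0).Nonempty := by
      rw [← card_pos, card_erase_of_mem hC.2, hC.1]; omega
    obtain ⟨a, ha⟩ := h1
    have h2 : a ∈ st x0 C := by rw [heq]; exact mem_of_mem_erase ha
    simp only [st, mem_insert, mem_compl] at h2
    rcases h2 with h2 | h2
    · exact ne_of_mem_erase ha h2
    · exact h2 (mem_of_mem_erase ha)
  · intro C hC
    rw [mem_Fx] at hC ⊢
    exact ⟨st_card hκ hC.2 hC.1, mem_st _ _⟩
  · intro C hC
    exact st_st (mem_Fx.1 hC).2

theorem bf_nondeg {n : ℕ} (hκ : Fintype.card κ + 1 = 2 * n) (x0 : κ) {y : Finset κ → ZMod 2}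
    (hy : y ∈ Z κ n) (h : ∀ y' ∈ Z κ n, bf n x0 y y' = 0) : y = 0 := by
  funext C1
  have h1 := h _ (col_mem hκ C1)
  have h2 := congrFun (T_one hκ x0 hy) C1
  rw [T_apply] at h2
  rw [← h2]
  show _ = (0 : ZMod 2)
  rw [← h1]
  unfold bf
  refine sum_congr rfl fun C _ => ?_
  rw [M_symm n C1 C]
  simp

theorem card_Fx {n : ℕ} (hκ : Fintype.card κ + 1 = 2 * n) (x0 : κ) :
    (Fx n x0).card ≤ (2 * n - 2).choose (n - 1) := by
  have h1 : Fx n x0 ⊆ (powersetCard (n - 1) (univ.erase x0)).image (insert x0) := by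
    intro C hC
    rw [mem_Fx] at hC
    rw [mem_image]
    refine ⟨C.erase x0, ?_, insert_erase hC.2⟩
    rw [mem_powersetCard]
    exact ⟨erase_subset_erase _ (subset_univ _), by rw [card_erase_of_mem hC.2, hC.1]⟩
  refine (card_le_card h1).trans (card_image_le.trans ?_)
  rw [card_powersetCard, card_erase_of_mem (mem_univ _), card_univ]
  have : Fintype.card κ - 1 = 2 * n - 2 := by omega
  rw [this]

theorem finrank_Z {n : ℕ} (hκ : Fintype.card κ + 1 = 2 * n) (x0 : κ) :
    Module.finrank (ZMod 2) (Z κ n) ≤ (2 * n - 2).choose (n - 1) := by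
  refine le_trans ?_ (card_Fx hκ x0)
  let r : (Z κ n) →ₗ[ZMod 2] (Fx n x0 → ZMod 2) :=
    (LinearMap.funLeft (ZMod 2) (ZMod 2) (fun C : Fx n x0 => (C : Finset κ))).comp (Z κ n).subtype
  have hr : Function.Injective r := by
    rintro ⟨y, hy⟩ ⟨z, hz⟩ hyz
    apply Subtype.ext
    refine up hy hz x0 fun C hC hx => ?_
    exact congrFun hyz ⟨C, mem_Fx.2 ⟨hC, hx⟩⟩
  have h := LinearMap.finrank_le_finrank_of_injective hr
  rw [Module.finrank_fintype_fun_eq_card, Fintype.card_coe] at h
  exact h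

/-- the operator on cocycles -/
def TZ {n : ℕ} (hκ : Fintype.card κ + 1 = 2 * n) (x : κ) (φ : Finset κ → ZMod 2) :
    (Z κ n) →ₗ[ZMod 2] (Z κ n) :=
  LinearMap.codRestrict (Z κ n) ((T n x φ).comp (Z κ n).subtype) (fun _ => T_mem hκ x φ _)

theorem TZ_coe {n : ℕ} (hκ : Fintype.card κ + 1 = 2 * n) (x : κ) (φ : Finset κ → ZMod 2)
    (y : Z κ n) : ((TZ hκ x φ y : Z κ n) : Finset κ → ZMod 2) = T n x φ y := rfl

/-- the form on cocycles -/
def BZ (n : ℕ) (x0 : κ) : LinearMap.BilinForm (ZMod 2) (Z κ n) :=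
  LinearMap.mk₂ (ZMod 2) (fun y y' : Z κ n => bf n x0 y y')
    (by intro a b c; simp [bf, add_mul, sum_add_distrib])
    (by intro a b c; simp [bf, mul_sum, mul_assoc])
    (by intro a b c; simp [bf, mul_add, sum_add_distrib])
    (by intro a b c; simp [bf, mul_sum, mul_left_comm])

theorem BZ_apply (n : ℕ) (x0 : κ) (y y' : Z κ n) : BZ n x0 y y' = bf n x0 y y' := rfl

/-! ### data from the clique -/

section data

variable {V : Type} [DecidableEq V]

/-- indicator of `v ∈ A C` -/
def dd (n : ℕ) (A : Finset κ → Finset V) (v : V) (C : Finset κ) : ZMod 2 :=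
  if C.card = n ∧ v ∈ A C then 1 else 0

theorem keyK {n : ℕ} {A : Finset κ → Finset V} {c : V → κ}
    (hcA : ∀ C, C.card = n → ∀ v ∈ A C, c v ∈ C)
    (hinj : ∀ C, C.card = n → ∀ v ∈ A C, ∀ w ∈ A C, c v = c w → v = w)
    (hint : ∀ C C', C.card = n → C'.card = n → ∃ v, v ∈ A C ∧ v ∈ A C')
    {v : V} {C C' : Finset κ} (hC : C.card = n) (hC' : C'.card = n)
    (h : ∀ z, z ∈ C → z ∈ C' → z = c v) (hv : v ∈ A C) : v ∈ A C' := by
  obtain ⟨w, hw, hw'⟩ := hint C C' hC hC'
  have h1 := h (c w) (hcA C hC w hw) (hcA C' hC' w hw')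
  have h2 := hinj C hC w hw v hv h1
  rw [← h2]; exact hw'

theorem keyIff {n : ℕ} {A : Finset κ → Finset V} {c : V → κ}
    (hcA : ∀ C, C.card = n → ∀ v ∈ A C, c v ∈ C)
    (hinj : ∀ C, C.card = n → ∀ v ∈ A C, ∀ w ∈ A C, c v = c w → v = w)
    (hint : ∀ C C', C.card = n → C'.card = n → ∃ v, v ∈ A C ∧ v ∈ A C')
    {v : V} {C C' : Finset κ} (hC : C.card = n) (hC' : C'.card = n)
    (h : ∀ z, z ∈ C → z ∈ C' → z = c v) : dd n A v C = dd n A v C' := by
  have h1 : v ∈ A C ↔ v ∈ A C' :=
    ⟨keyK hcA hinj hint hC hC' h, keyK hcA hinj hint hC' hC (fun z h1 h2 => h z h2 h1)⟩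
  unfold dd
  simp only [hC, hC', h1]

theorem dd_st {n : ℕ} (hκ : Fintype.card κ + 1 = 2 * n) {A : Finset κ → Finset V} {c : V → κ}
    (hcA : ∀ C, C.card = n → ∀ v ∈ A C, c v ∈ C)
    (hinj : ∀ C, C.card = n → ∀ v ∈ A C, ∀ w ∈ A C, c v = c w → v = w)
    (hint : ∀ C C', C.card = n → C'.card = n → ∃ v, v ∈ A C ∧ v ∈ A C')
    (v : V) (C : Finset κ) (hC : C.card = n) (hv : c v ∈ C) :
    dd n A v (st (c v) C) = dd n A v C := by
  refine keyIff hcA hinj hint (st_card hκ hv hC) hC fun z h1 h2 => ?_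
  simp only [st, mem_insert, mem_compl] at h1
  rcases h1 with h1 | h1
  · exact h1
  · exact absurd h2 h1

theorem dd_zero {n : ℕ} {A : Finset κ → Finset V} {c : V → κ}
    (hcA : ∀ C, C.card = n → ∀ v ∈ A C, c v ∈ C) (v : V) (C : Finset κ) (hv : c v ∉ C) :
    dd n A v C = 0 := by
  unfold dd
  exact if_neg fun h => hv (hcA C h.1 v h.2)

theorem dd_hex {n : ℕ} (hκ : Fintype.card κ + 1 = 2 * n) {A : Finset κ → Finset V} {c : V → κ}
    (hcA : ∀ C, C.card = n → ∀ v ∈ A C, c v ∈ C)
    (hinj : ∀ C, C.card = n → ∀ v ∈ A C, ∀ w ∈ A C, c v = c w → v = w)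
    (hint : ∀ C C', C.card = n → C'.card = n → ∃ v, v ∈ A C ∧ v ∈ A C')
    {u w : V} (huw : c u ≠ c w) (D : Finset κ) (hD : D.card = n + 1) (a : κ) (ha : a ∈ D)
    (hu : c u ∈ D) (hw : c w ∈ D) (hau : a ≠ c u) (haw : a ≠ c w) :
    (dd n A u (D.erase a) + dd n A u (D.erase (c w))) *
      (dd n A w (D.erase a) + dd n A w (D.erase (c u))) = 0 := by
  have hcard : ∀ b ∈ D, (D.erase b).card = n := by
    intro b hb; rw [card_erase_of_mem hb, hD]; simp
  have hC2 : (insert (c u) (insert (c w) Dᶜ)).card = n := by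
    rw [card_insert_of_notMem (by simp [huw, hu]), card_insert_of_notMem (by simp [hw]), card_compl]
    have := card_le_univ D
    omega
  have h1 : dd n A u (insert (c u) (insert (c w) Dᶜ)) = dd n A u (D.erase (c w)) := by
    refine keyIff hcA hinj hint hC2 (hcard _ hw) fun z h1 h2 => ?_
    simp only [mem_insert, mem_compl, mem_erase] at h1 h2
    tauto
  have h2 : dd n A w (insert (c u) (insert (c w) Dᶜ)) = dd n A w (D.erase (c u)) := by
    refine keyIff hcA hinj hint hC2 (hcard _ hu) fun z h1 h2 => ?_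
    simp only [mem_insert, mem_compl, mem_erase] at h1 h2
    tauto
  obtain ⟨z, hz, hz'⟩ := hint (D.erase a) _ (hcard a ha) hC2
  have hcz := hcA _ (hcard a ha) z hz
  have hcz' := hcA _ hC2 z hz'
  have h3 : c z = c u ∨ c z = c w := by
    simp only [mem_insert, mem_compl, mem_erase] at hcz hcz'
    tauto
  have h4 : ∀ v : V, c z = c v →
      dd n A v (D.erase a) = dd n A v (insert (c u) (insert (c w) Dᶜ)) := by
    intro v hzv
    have h5 : v ∈ A (D.erase a) ↔ v ∈ A (insert (c u) (insert (c w) Dᶜ)) := by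
      constructor
      · intro hv
        rw [← hinj _ (hcard a ha) z hz v hv hzv]; exact hz'
      · intro hv
        rw [← hinj _ hC2 z hz' v hv hzv]; exact hz
    unfold dd
    simp only [hcard a ha, hC2, h5]
  rcases h3 with h3 | h3
  · rw [h4 u h3, h1, add_self2, zero_mul]
  · rw [h4 w h3, h2, add_self2, mul_zero]

end data

theorem abs_rank {L V : Type} [AddCommGroup L] [Module (ZMod 2) L] [FiniteDimensional (ZMod 2) L]
    [Fintype V] [AddCommGroup V] [Module (ZMod 2) V]
    (B : LinearMap.BilinForm (ZMod 2) L) (hB0 : B.Nondegenerate) (hBalt : ∀ u, B u u = 0)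
    (E : V →ₗ[ZMod 2] (L →ₗ[ZMod 2] L))
    (hid : ∀ h u, E h (E h u) = E h u) (hcomm : ∀ h h' u, E h (E h' u) = E h' (E h u))
    (hsa : ∀ h u w, B (E h u) w = B u (E h w)) :
    2 * Module.finrank (ZMod 2) (LinearMap.range E) ≤ Module.finrank (ZMod 2) L := by
  classical
  -- a separating vector
  obtain ⟨u, hu⟩ : ∃ u : L, ∀ h, E h u = 0 → E h = 0 := by
    obtain ⟨u, hu⟩ : ∃ u : L, ∀ w : L,
        (Finset.univ.filter fun h => E h u = 0).card ≤ (Finset.univ.filter fun h => E h w = 0).card := by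
      have hne : (Set.range fun u : L => (Finset.univ.filter fun h => E h u = 0).card).Nonempty :=
        ⟨_, ⟨0, rfl⟩⟩
      obtain ⟨u, hu⟩ := Nat.sInf_mem hne
      exact ⟨u, fun w => by
        have h1 := Nat.sInf_le (show (Finset.univ.filter fun h => E h w = 0).card ∈
          (Set.range fun u : L => (Finset.univ.filter fun h => E h u = 0).card) from ⟨w, rfl⟩)
        simp only at hu
        rw [hu]
        exact h1⟩
    refine ⟨u, fun h hh => ?_⟩
    by_contra hne
    obtain ⟨w, hw⟩ : ∃ w, E h w ≠ 0 := by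
      by_contra hcon
      push Not at hcon
      exact hne (LinearMap.ext hcon)
    have h1 := hu (u + E h w)
    have h2 : (Finset.univ.filter fun k => E k (u + E h w) = 0) ⊂
        (Finset.univ.filter fun k => E k u = 0) := by
      rw [Finset.ssubset_iff_of_subset]
      · refine ⟨h, by simp [hh], ?_⟩
        simp [hh, hid, hw]
      · intro k hk
        simp only [Finset.mem_filter, Finset.mem_univ, true_and] at hk ⊢
        have h3 : E k u + E k (E h w) = 0 := by rw [← map_add]; exact hk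
        have h4 : E h (E k u + E k (E h w)) = 0 := by rw [h3, map_zero]
        rw [map_add, hcomm h k u, hh, map_zero, zero_add, hcomm h k, hid] at h4
        rw [h4, add_zero] at h3
        exact h3
    exact absurd (Finset.card_lt_card h2) (not_lt.2 h1)
  -- the map h ↦ E h u
  let ev : V →ₗ[ZMod 2] L := (LinearMap.applyₗ u).comp E
  have hev : ∀ h, ev h = E h u := fun h => rfl
  have hker : LinearMap.ker ev = LinearMap.ker E := by
    ext h
    rw [LinearMap.mem_ker, LinearMap.mem_ker, hev]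
    exact ⟨hu h, fun hh => by rw [hh]; rfl⟩
  have hrank : Module.finrank (ZMod 2) (LinearMap.range ev) = Module.finrank (ZMod 2) (LinearMap.range E) := by
    have h1 := LinearMap.finrank_range_add_finrank_ker ev
    have h2 := LinearMap.finrank_range_add_finrank_ker E
    rw [hker] at h1
    omega
  have hiso : LinearMap.range ev ≤ B.orthogonal (LinearMap.range ev) := by
    rintro _ ⟨a, rfl⟩
    rw [LinearMap.BilinForm.mem_orthogonal_iff]
    rintro _ ⟨b, rfl⟩
    rw [hev, hev]
    show B (E b u) (E a u) = 0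
    have h1 : B (E b u) (E a u) = B (E b (E a u)) (E b (E a u)) := by
      rw [hsa b u, hsa b (E a u), hid, hsa a u, hcomm a b, hid]
    rw [h1]
    exact hBalt _
  have hfin := LinearMap.BilinForm.finrank_orthogonal hB0 (LinearMap.range ev)
  have := Submodule.finrank_mono hiso
  rw [hfin, hrank] at this
  have h5 : Module.finrank (ZMod 2) (LinearMap.range E) ≤ Module.finrank (ZMod 2) L := by
    rw [← hrank]; exact Submodule.finrank_le _
  omega

theorem sum_idem {L W : Type} [AddCommGroup L] [Module (ZMod 2) L] [DecidableEq W] (S : Finset W)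
    (b : W → Module.End (ZMod 2) L) (hid : ∀ v, b v * b v = b v)
    (hcomm : ∀ v w, b v * b w = b w * b v) :
    (∑ v ∈ S, b v) * (∑ v ∈ S, b v) = ∑ v ∈ S, b v := by
  induction S using Finset.induction_on with
  | empty => simp
  | insert v S hv ih =>
    rw [sum_insert hv, add_mul, mul_add, mul_add, hid, ih]
    have h1 : (∑ w ∈ S, b w) * b v = b v * ∑ w ∈ S, b w := by
      rw [sum_mul, mul_sum]
      exact sum_congr rfl fun w _ => hcomm w v
    rw [h1]
    have h2 : b v * ∑ w ∈ S, b w + b v * ∑ w ∈ S, b w = 0 := ZModModule.add_self _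
    calc b v + b v * ∑ w ∈ S, b w + (b v * ∑ w ∈ S, b w + ∑ w ∈ S, b w)
        = b v + (b v * ∑ w ∈ S, b w + b v * ∑ w ∈ S, b w) + ∑ w ∈ S, b w := by abel
      _ = _ := by rw [h2, add_zero]

section data2

variable {V : Type} [Fintype V] [DecidableEq V]

/-- the linear family of operators -/
noncomputable def EE {n : ℕ} (hκ : Fintype.card κ + 1 = 2 * n) (A : Finset κ → Finset V)
    (c : V → κ) : (V → ZMod 2) →ₗ[ZMod 2] (Z κ n →ₗ[ZMod 2] Z κ n) :=
  Fintype.linearCombination (ZMod 2) (fun v => TZ hκ (c v) (dd n A v))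

theorem EE_apply {n : ℕ} (hκ : Fintype.card κ + 1 = 2 * n) (A : Finset κ → Finset V)
    (c : V → κ) (h : V → ZMod 2) : EE hκ A c h = ∑ v, h v • TZ hκ (c v) (dd n A v) := rfl

theorem TZ_comm {n : ℕ} (hκ : Fintype.card κ + 1 = 2 * n) {A : Finset κ → Finset V} {c : V → κ}
    (hcA : ∀ C, C.card = n → ∀ v ∈ A C, c v ∈ C)
    (hinj : ∀ C, C.card = n → ∀ v ∈ A C, ∀ w ∈ A C, c v = c w → v = w)
    (hint : ∀ C C', C.card = n → C'.card = n → ∃ v, v ∈ A C ∧ v ∈ A C') (v w : V) (y : Z κ n) :
    TZ hκ (c v) (dd n A v) (TZ hκ (c w) (dd n A w) y) =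
      TZ hκ (c w) (dd n A w) (TZ hκ (c v) (dd n A v) y) := by
  apply Subtype.ext
  rw [TZ_coe, TZ_coe, TZ_coe, TZ_coe]
  by_cases hvw : c v = c w
  · rw [hvw]
    refine T_comm_same hκ ?_ (dd_st hκ hcA hinj hint w) _
    rw [← hvw]
    exact dd_st hκ hcA hinj hint v
  · exact T_comm hκ hvw (dd_st hκ hcA hinj hint v) (dd_st hκ hcA hinj hint w)
      (dd_zero hcA v) (dd_zero hcA w)
      (fun D hD a ha hx ht hax hat => dd_hex hκ hcA hinj hint hvw D hD a ha hx ht hax hat) y.2

theorem EE_idem {n : ℕ} (hκ : Fintype.card κ + 1 = 2 * n) {A : Finset κ → Finset V} {c : V → κ}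
    (hcA : ∀ C, C.card = n → ∀ v ∈ A C, c v ∈ C)
    (hinj : ∀ C, C.card = n → ∀ v ∈ A C, ∀ w ∈ A C, c v = c w → v = w)
    (hint : ∀ C C', C.card = n → C'.card = n → ∃ v, v ∈ A C ∧ v ∈ A C') (h : V → ZMod 2)
    (y : Z κ n) : EE hκ A c h (EE hκ A c h y) = EE hκ A c h y := by
  have h1 := sum_idem (L := Z κ n) (univ : Finset V) (fun v => h v • TZ hκ (c v) (dd n A v))
    (fun v => by
      apply LinearMap.ext
      intro u
      show h v • TZ hκ (c v) (dd n A v) (h v • TZ hκ (c v) (dd n A v) u) =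
        h v • TZ hκ (c v) (dd n A v) u
      rw [map_smul, smul_smul, mul_self2]
      congr 1
      apply Subtype.ext
      exact T_idem hκ (dd_st hκ hcA hinj hint v) _)
    (fun v w => by
      apply LinearMap.ext
      intro u
      show h v • TZ hκ (c v) (dd n A v) (h w • TZ hκ (c w) (dd n A w) u) =
        h w • TZ hκ (c w) (dd n A w) (h v • TZ hκ (c v) (dd n A v) u)
      rw [map_smul, smul_smul, map_smul, smul_smul, mul_comm, TZ_comm hκ hcA hinj hint])
  exact LinearMap.congr_fun h1 y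

theorem EE_comm {n : ℕ} (hκ : Fintype.card κ + 1 = 2 * n) {A : Finset κ → Finset V} {c : V → κ}
    (hcA : ∀ C, C.card = n → ∀ v ∈ A C, c v ∈ C)
    (hinj : ∀ C, C.card = n → ∀ v ∈ A C, ∀ w ∈ A C, c v = c w → v = w)
    (hint : ∀ C C', C.card = n → C'.card = n → ∃ v, v ∈ A C ∧ v ∈ A C') (h h' : V → ZMod 2)
    (y : Z κ n) : EE hκ A c h (EE hκ A c h' y) = EE hκ A c h' (EE hκ A c h y) := by
  simp only [EE_apply, LinearMap.sum_apply, LinearMap.smul_apply, map_sum, map_smul, smul_sum,
    smul_smul]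
  rw [sum_comm]
  refine sum_congr rfl fun w _ => sum_congr rfl fun v _ => ?_
  rw [TZ_comm hκ hcA hinj hint, mul_comm]

theorem EE_sa {n : ℕ} (hκ : Fintype.card κ + 1 = 2 * n) (x0 : κ) {A : Finset κ → Finset V}
    {c : V → κ}
    (hcA : ∀ C, C.card = n → ∀ v ∈ A C, c v ∈ C)
    (hinj : ∀ C, C.card = n → ∀ v ∈ A C, ∀ w ∈ A C, c v = c w → v = w)
    (hint : ∀ C C', C.card = n → C'.card = n → ∃ v, v ∈ A C ∧ v ∈ A C') (h : V → ZMod 2)
    (y y' : Z κ n) : BZ n x0 (EE hκ A c h y) y' = BZ n x0 y (EE hκ A c h y') := by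
  simp only [EE_apply, LinearMap.sum_apply, LinearMap.smul_apply, map_sum, map_smul]
  refine sum_congr rfl fun v _ => ?_
  congr 1
  rw [BZ_apply, BZ_apply, TZ_coe, TZ_coe]
  exact bf_sa hκ x0 (dd_st hκ hcA hinj hint v) y.2 y'.2

theorem rank_bound {n : ℕ} (hκ : Fintype.card κ + 1 = 2 * n) (hn : 2 ≤ n) (x0 : κ)
    {A : Finset κ → Finset V} {c : V → κ}
    (hcA : ∀ C, C.card = n → ∀ v ∈ A C, c v ∈ C)
    (hinj : ∀ C, C.card = n → ∀ v ∈ A C, ∀ w ∈ A C, c v = c w → v = w)
    (hint : ∀ C C', C.card = n → C'.card = n → ∃ v, v ∈ A C ∧ v ∈ A C') :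
    2 * Module.finrank (ZMod 2) (LinearMap.range (EE hκ A c)) ≤ (2 * n - 2).choose (n - 1) := by
  refine (abs_rank (BZ n x0) ?_ ?_ (EE hκ A c) (EE_idem hκ hcA hinj hint)
    (EE_comm hκ hcA hinj hint) (EE_sa hκ x0 hcA hinj hint)).trans (finrank_Z hκ x0)
  · constructor
    · intro y hy
      apply Subtype.ext
      exact bf_nondeg hκ x0 y.2 fun y' hy' => hy ⟨y', hy'⟩
    · intro y hy
      apply Subtype.ext
      refine bf_nondeg hκ x0 y.2 fun y' hy' => ?_
      rw [bf_symm hκ]
      exact hy ⟨y', hy'⟩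
  · intro y
    exact bf_alt hκ hn x0 y

end data2

section kern

variable {V : Type} [Fintype V] [DecidableEq V]

/-- weight of colour `x` at `C` -/
def HH (n : ℕ) (A : Finset κ → Finset V) (c : V → κ) (h : V → ZMod 2) (x : κ) (C : Finset κ) :
    ZMod 2 := ∑ v, if c v = x then h v * dd n A v C else 0

theorem ker_eq {n : ℕ} (hκ : Fintype.card κ + 1 = 2 * n) {A : Finset κ → Finset V} {c : V → κ}
    (hcA : ∀ C, C.card = n → ∀ v ∈ A C, c v ∈ C)
    (hinj : ∀ C, C.card = n → ∀ v ∈ A C, ∀ w ∈ A C, c v = c w → v = w)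
    (hint : ∀ C C', C.card = n → C'.card = n → ∃ v, v ∈ A C ∧ v ∈ A C')
    {h : V → ZMod 2} (hE : EE hκ A c h = 0) {C C1 : Finset κ} (hC : C.card = n) :
    ∑ v, h v * (if c v ∈ C then dd n A v C * M n C C1 else
      ∑ a ∈ C, dd n A v ((insert (c v) C).erase a) * M n ((insert (c v) C).erase a) C1) = 0 := by
  have h1 : EE hκ A c h ⟨_, col_mem hκ C1⟩ = 0 := by rw [hE]; rfl
  rw [EE_apply] at h1
  have h2 := congrFun (congrArg (Subtype.val) h1) C
  rw [LinearMap.sum_apply, Submodule.coe_sum, Finset.sum_apply] at h2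
  rw [show (((0 : Z κ n) : Finset κ → ZMod 2) C) = 0 from rfl] at h2
  rw [← h2]
  refine sum_congr rfl fun v _ => ?_
  show _ = h v * (T n (c v) (dd n A v) (fun C => M n C C1) C)
  congr 1
  by_cases hv : c v ∈ C
  · rw [if_pos hv, T_eval hκ (dd_st hκ hcA hinj hint v) _ hC hv]
  · rw [if_neg hv, rel (T_mem hκ (c v) (dd n A v) _) hv hC]
    refine sum_congr rfl fun a ha => ?_
    have hne : c v ≠ a := by rintro rfl; exact hv ha
    rw [T_eval hκ (dd_st hκ hcA hinj hint v)]
    · rw [card_erase_of_mem (mem_insert_of_mem ha), card_insert_of_notMem hv, hC]; simp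
    · exact mem_erase.2 ⟨hne, mem_insert_self _ _⟩

theorem HH_exch {n : ℕ} (hκ : Fintype.card κ + 1 = 2 * n) {A : Finset κ → Finset V} {c : V → κ}
    (hcA : ∀ C, C.card = n → ∀ v ∈ A C, c v ∈ C)
    (hinj : ∀ C, C.card = n → ∀ v ∈ A C, ∀ w ∈ A C, c v = c w → v = w)
    (hint : ∀ C C', C.card = n → C'.card = n → ∃ v, v ∈ A C ∧ v ∈ A C')
    {h : V → ZMod 2} (hE : EE hκ A c h = 0) {D : Finset κ} (hD : D.card = n + 1) {x a b : κ}
    (hx : x ∈ D) (ha : a ∈ D) (hb : b ∈ D) (hab : a ≠ b) (hax : a ≠ x) (hbx : b ≠ x) :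
    HH n A c h x (D.erase a) = HH n A c h x (D.erase b) := by
  have hCn : (D.erase x).card = n := by rw [card_erase_of_mem hx, hD]; simp
  have h1 := ker_eq hκ hcA hinj hint hE (C := D.erase x) (C1 := insert a (insert b Dᶜ)) hCn
  have hC1n : (insert a (insert b Dᶜ)).card = n := by
    rw [card_insert_of_notMem (by simp [hab, ha]), card_insert_of_notMem (by simp [hb]), card_compl]
    have := card_le_univ D
    omega
  have h2 : ∀ v, (if c v ∈ D.erase x then dd n A v (D.erase x) *
        M n (D.erase x) (insert a (insert b Dᶜ)) else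
      ∑ a' ∈ D.erase x, dd n A v ((insert (c v) (D.erase x)).erase a') *
        M n ((insert (c v) (D.erase x)).erase a') (insert a (insert b Dᶜ))) =
      if c v = x then dd n A v (D.erase a) + dd n A v (D.erase b) else 0 := by
    intro v
    by_cases hv : c v = x
    · rw [if_pos hv, if_neg (by simp [hv]), hv, insert_erase hx]
      have h3 : ∀ a' ∈ D.erase x, dd n A v (D.erase a') *
          M n (D.erase a') (insert a (insert b Dᶜ)) =
          (if a' = a then dd n A v (D.erase a) else 0) +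
          (if a' = b then dd n A v (D.erase b) else 0) := by
        intro a' ha'
        have ha'D := mem_of_mem_erase ha'
        have hcn : (D.erase a').card = n := by rw [card_erase_of_mem ha'D, hD]; simp
        by_cases h4 : a' = a
        · have h5 : D.erase a' ∩ insert a (insert b Dᶜ) = {b} := by
            ext z
            simp only [mem_inter, mem_erase, mem_insert, mem_compl, mem_singleton]
            constructor
            · rintro ⟨⟨h6, h7⟩, h8 | h8 | h8⟩
              · exact absurd (h8.trans h4.symm) h6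
              · exact h8
              · exact absurd h7 h8
            · rintro rfl
              exact ⟨⟨fun h => hab (h4.symm.trans h.symm), hb⟩, Or.inr (Or.inl rfl)⟩
          have h6 : M n (D.erase a') (insert a (insert b Dᶜ)) = 1 := by
            unfold M
            exact if_pos ⟨hcn, hC1n, by rw [h5, card_singleton]⟩
          rw [h6, if_pos h4, if_neg (by rw [h4]; exact hab), h4, mul_one, add_zero]
        · by_cases h4' : a' = b
          · have h5 : D.erase a' ∩ insert a (insert b Dᶜ) = {a} := by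
              ext z
              simp only [mem_inter, mem_erase, mem_insert, mem_compl, mem_singleton]
              constructor
              · rintro ⟨⟨h6, h7⟩, h8 | h8 | h8⟩
                · exact h8
                · exact absurd (h8.trans h4'.symm) h6
                · exact absurd h7 h8
              · rintro rfl
                exact ⟨⟨fun h => h4 h.symm, ha⟩, Or.inl rfl⟩
            have h6 : M n (D.erase a') (insert a (insert b Dᶜ)) = 1 := by
              unfold M
              exact if_pos ⟨hcn, hC1n, by rw [h5, card_singleton]⟩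
            rw [h6, if_neg h4, if_pos h4', h4', mul_one, zero_add]
          · have h6 : M n (D.erase a') (insert a (insert b Dᶜ)) = 0 := by
              unfold M
              refine if_neg fun h => ?_
              obtain ⟨z, hz⟩ := card_eq_one.1 h.2.2
              have hza : a ∈ D.erase a' ∩ insert a (insert b Dᶜ) :=
                mem_inter.2 ⟨mem_erase.2 ⟨fun h => h4 h.symm, ha⟩, mem_insert_self _ _⟩
              have hzb : b ∈ D.erase a' ∩ insert a (insert b Dᶜ) :=
                mem_inter.2 ⟨mem_erase.2 ⟨fun h => h4' h.symm, hb⟩,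
                  mem_insert_of_mem (mem_insert_self _ _)⟩
              rw [hz, mem_singleton] at hza hzb
              exact hab (hza.trans hzb.symm)
            rw [h6, if_neg h4, if_neg h4', mul_zero, add_zero]
      rw [sum_congr rfl h3, sum_add_distrib, sum_ite_eq', sum_ite_eq', if_pos, if_pos]
      · exact mem_erase.2 ⟨hbx, hb⟩
      · exact mem_erase.2 ⟨hax, ha⟩
    · rw [if_neg hv]
      by_cases hvC : c v ∈ D.erase x
      · rw [if_pos hvC]
        have h6 : M n (D.erase x) (insert a (insert b Dᶜ)) = 0 := by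
          unfold M
          refine if_neg fun h => ?_
          obtain ⟨z, hz⟩ := card_eq_one.1 h.2.2
          have hza : a ∈ D.erase x ∩ insert a (insert b Dᶜ) :=
            mem_inter.2 ⟨mem_erase.2 ⟨hax, ha⟩, mem_insert_self _ _⟩
          have hzb : b ∈ D.erase x ∩ insert a (insert b Dᶜ) :=
            mem_inter.2 ⟨mem_erase.2 ⟨hbx, hb⟩, mem_insert_of_mem (mem_insert_self _ _)⟩
          rw [hz, mem_singleton] at hza hzb
          exact hab (hza.trans hzb.symm)
        rw [h6, mul_zero]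
      · rw [if_neg hvC]
        have hvD : c v ∉ D := fun h => hvC (mem_erase.2 ⟨hv, h⟩)
        refine sum_eq_zero fun a' ha' => ?_
        have h6 : M n ((insert (c v) (D.erase x)).erase a') (insert a (insert b Dᶜ)) = 0 := by
          unfold M
          refine if_neg fun h => ?_
          obtain ⟨z, hz⟩ := card_eq_one.1 h.2.2
          have hcv : c v ∈ (insert (c v) (D.erase x)).erase a' ∩ insert a (insert b Dᶜ) := by
            refine mem_inter.2 ⟨mem_erase.2 ⟨?_, mem_insert_self _ _⟩, ?_⟩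
            · rintro rfl; exact hvC ha'
            · exact mem_insert_of_mem (mem_insert_of_mem (mem_compl.2 hvD))
          have key : ∀ e ∈ D, e ≠ x → (e = a ∨ e = b) → e ≠ a' → False := by
            intro e he hex hee hea
            have h7 : e ∈ (insert (c v) (D.erase x)).erase a' ∩ insert a (insert b Dᶜ) := by
              refine mem_inter.2 ⟨mem_erase.2 ⟨hea, mem_insert_of_mem (mem_erase.2 ⟨hex, he⟩)⟩, ?_⟩
              rcases hee with rfl | rfl
              · exact mem_insert_self _ _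
              · exact mem_insert_of_mem (mem_insert_self _ _)
            rw [hz, mem_singleton] at h7 hcv
            rw [hcv, ← h7] at hvD
            exact hvD he
          by_cases h8 : a = a'
          · exact key b hb hbx (Or.inr rfl) (fun h => hab (h8.trans h.symm))
          · exact key a ha hax (Or.inl rfl) h8
        rw [h6, mul_zero]
  rw [sum_congr rfl (fun v _ => by rw [h2 v])] at h1
  refine eq_of_sub_eq_zero ?_
  rw [CharTwo.sub_eq_add, ← h1]
  unfold HH
  rw [← sum_add_distrib]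
  refine sum_congr rfl fun v _ => ?_
  by_cases hv : c v = x
  · rw [if_pos hv, if_pos hv, if_pos hv]; ring
  · rw [if_neg hv, if_neg hv, if_neg hv]; ring

theorem HH_const {n : ℕ} (hκ : Fintype.card κ + 1 = 2 * n) {A : Finset κ → Finset V} {c : V → κ}
    (hcA : ∀ C, C.card = n → ∀ v ∈ A C, c v ∈ C)
    (hinj : ∀ C, C.card = n → ∀ v ∈ A C, ∀ w ∈ A C, c v = c w → v = w)
    (hint : ∀ C C', C.card = n → C'.card = n → ∃ v, v ∈ A C ∧ v ∈ A C')
    {h : V → ZMod 2} (hE : EE hκ A c h = 0) {x : κ} {C' : Finset κ} (hC' : C'.card = n)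
    (hx' : x ∈ C') : ∀ m : ℕ, ∀ C : Finset κ, (C \ C').card = m → C.card = n → x ∈ C →
    HH n A c h x C = HH n A c h x C' := by
  intro m
  induction m with
  | zero =>
    intro C hm hC _
    have h1 : C ⊆ C' := sdiff_eq_empty_iff_subset.1 (card_eq_zero.1 hm)
    rw [eq_of_subset_of_card_le h1 (by rw [hC, hC'])]
  | succ m ih =>
    intro C hm hC hx
    obtain ⟨b, hb⟩ : (C \ C').Nonempty := by rw [← card_pos, hm]; omega
    obtain ⟨a, ha⟩ : (C' \ C).Nonempty := by
      rw [← card_pos]
      have h1 := card_sdiff_add_card_inter C C'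
      have h2 := card_sdiff_add_card_inter C' C
      rw [inter_comm] at h2
      omega
    rw [mem_sdiff] at ha hb
    have hbx : b ≠ x := by rintro rfl; exact hb.2 hx'
    have hax : a ≠ x := by rintro rfl; exact ha.2 hx
    have hab : a ≠ b := by rintro rfl; exact ha.2 hb.1
    have hD : (insert a C).card = n + 1 := by rw [card_insert_of_notMem ha.2, hC]
    have h1 := HH_exch hκ hcA hinj hint hE hD (mem_insert_of_mem hx) (mem_insert_self a C)
      (mem_insert_of_mem hb.1) hab hax hbx
    rw [erase_insert ha.2] at h1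
    rw [h1]
    refine ih _ ?_ ?_ ?_
    · have h2 : (insert a C).erase b \ C' = (C \ C').erase b := by
        ext z
        simp only [mem_sdiff, mem_erase, mem_insert]
        constructor
        · rintro ⟨⟨h3, h4 | h4⟩, h5⟩
          · exact absurd ha.1 (by rw [← h4]; exact h5)
          · exact ⟨h3, h4, h5⟩
        · rintro ⟨h3, h4, h5⟩
          exact ⟨⟨h3, Or.inr h4⟩, h5⟩
      rw [h2, card_erase_of_mem (mem_sdiff.2 hb), hm]; simp
    · rw [card_erase_of_mem (mem_insert_of_mem hb.1), hD]; simp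
    · exact mem_erase.2 ⟨hbx.symm, mem_insert_of_mem hx⟩

theorem HH_sum {n : ℕ} (hκ : Fintype.card κ + 1 = 2 * n) {A : Finset κ → Finset V} {c : V → κ}
    (hcA : ∀ C, C.card = n → ∀ v ∈ A C, c v ∈ C)
    (hinj : ∀ C, C.card = n → ∀ v ∈ A C, ∀ w ∈ A C, c v = c w → v = w)
    (hint : ∀ C C', C.card = n → C'.card = n → ∃ v, v ∈ A C ∧ v ∈ A C')
    {h : V → ZMod 2} (hE : EE hκ A c h = 0) {C : Finset κ} (hC : C.card = n) {b : κ} (hb : b ∈ C) :
    ∑ x, HH n A c h x (if x ∈ C then C else (insert x C).erase b) = 0 := by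
  have h1 := ker_eq hκ hcA hinj hint hE (C := C) (C1 := st b C) hC
  rw [← h1]
  unfold HH
  rw [sum_comm]
  refine sum_congr rfl fun v _ => ?_
  rw [sum_ite_eq, if_pos (mem_univ _)]
  congr 1
  have hstn := st_card hκ hb hC
  by_cases hv : c v ∈ C
  · rw [if_pos hv, if_pos hv, M_eq hκ hb (mem_st _ _) hC hstn, if_pos rfl, mul_one]
  · rw [if_neg hv, if_neg hv, sum_eq_single b]
    · have h2 : M n ((insert (c v) C).erase b) (st b C) = 1 := by
        unfold M
        refine if_pos ⟨?_, hstn, ?_⟩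
        · rw [card_erase_of_mem (mem_insert_of_mem hb), card_insert_of_notMem hv, hC]; simp
        · have h3 : (insert (c v) C).erase b ∩ st b C = {c v} := by
            ext z
            simp only [st, mem_inter, mem_erase, mem_insert, mem_compl, mem_singleton]
            constructor
            · rintro ⟨⟨h3, h4 | h4⟩, h5 | h5⟩
              · exact h4
              · exact h4
              · exact absurd h5 h3
              · exact absurd h4 h5
            · rintro rfl
              exact ⟨⟨fun h => hv (h ▸ hb), Or.inl rfl⟩, Or.inr hv⟩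
          rw [h3, card_singleton]
      rw [h2, mul_one]
    · intro a ha hab
      have h2 : M n ((insert (c v) C).erase a) (st b C) = 0 := by
        unfold M
        refine if_neg fun h => ?_
        obtain ⟨z, hz⟩ := card_eq_one.1 h.2.2
        have hcv : c v ∈ (insert (c v) C).erase a ∩ st b C := by
          refine mem_inter.2 ⟨mem_erase.2 ⟨?_, mem_insert_self _ _⟩, ?_⟩
          · rintro rfl; exact hv ha
          · exact mem_insert_of_mem (mem_compl.2 hv)
        have hbb : b ∈ (insert (c v) C).erase a ∩ st b C :=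
          mem_inter.2 ⟨mem_erase.2 ⟨fun h => hab h.symm, mem_insert_of_mem hb⟩, mem_st _ _⟩
        rw [hz, mem_singleton] at hcv hbb
        rw [hcv, ← hbb] at hv
        exact hv hb
      rw [h2, mul_zero]
    · intro h; exact absurd hb h

end kern

section fin

variable {V : Type} [Fintype V] [DecidableEq V]

theorem ker_bound {n : ℕ} (hκ : Fintype.card κ + 1 = 2 * n) (hn : 2 ≤ n) (x0 : κ)
    {A : Finset κ → Finset V} {c : V → κ}
    (hcA : ∀ C, C.card = n → ∀ v ∈ A C, c v ∈ C)
    (hinj : ∀ C, C.card = n → ∀ v ∈ A C, ∀ w ∈ A C, c v = c w → v = w)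
    (hint : ∀ C C', C.card = n → C'.card = n → ∃ v, v ∈ A C ∧ v ∈ A C')
    (hcov : ∀ v, ∃ C, C.card = n ∧ v ∈ A C) :
    Module.finrank (ZMod 2) (LinearMap.ker (EE hκ A c)) ≤ 2 * n - 2 := by
  have hS : ∀ x : κ, ∃ S : Finset κ, S.card = n ∧ x ∈ S := by
    intro x
    obtain ⟨S, h1, h2⟩ := exists_superset_card_eq (s := ({x} : Finset κ)) (n := n)
      (by rw [card_singleton]; omega) (by omega)
    exact ⟨S, h2, h1 (mem_singleton_self x)⟩
  choose S hSn hSx using hS
  let Λ : (V → ZMod 2) →ₗ[ZMod 2] ({x : κ // x ≠ x0} → ZMod 2) :=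
    { toFun := fun h x => HH n A c h x (S x)
      map_add' := by
        intro h h'
        funext x
        simp only [HH, Pi.add_apply, ← sum_add_distrib]
        refine sum_congr rfl fun v _ => ?_
        by_cases hv : c v = x
        · simp only [hv, if_true]; ring
        · simp only [hv, if_false, add_zero]
      map_smul' := by
        intro r h
        funext x
        simp only [HH, Pi.smul_apply, smul_eq_mul, RingHom.id_apply, mul_sum]
        refine sum_congr rfl fun v _ => ?_
        by_cases hv : c v = x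
        · simp only [hv, if_true]; ring
        · simp only [hv, if_false, mul_zero] }
  have hΛ : ∀ h x, Λ h x = HH n A c h x (S x) := fun h x => rfl
  have hinjΛ : Function.Injective (Λ.domRestrict (LinearMap.ker (EE hκ A c))) := by
    rw [← LinearMap.ker_eq_bot, LinearMap.ker_eq_bot']
    rintro ⟨h, hh⟩ h0
    rw [LinearMap.mem_ker] at hh
    have h1 : ∀ x, x ≠ x0 → HH n A c h x (S x) = 0 := by
      intro x hx
      have := congrFun h0 ⟨x, hx⟩
      rw [LinearMap.domRestrict_apply, hΛ] at this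
      exact this
    have h2 : ∀ x, x ≠ x0 → ∀ C : Finset κ, C.card = n → x ∈ C → HH n A c h x C = 0 := by
      intro x hx C hC hxC
      rw [HH_const hκ hcA hinj hint hh (hSn x) (hSx x) _ C rfl hC hxC]
      exact h1 x hx
    have h3 : HH n A c h x0 (S x0) = 0 := by
      have h4 := HH_sum hκ hcA hinj hint hh (hSn x0) (hSx x0)
      rw [sum_eq_single x0] at h4
      · rw [if_pos (hSx x0)] at h4; exact h4
      · intro x _ hx
        by_cases hxS : x ∈ S x0
        · rw [if_pos hxS]; exact h2 x hx _ (hSn x0) hxS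
        · rw [if_neg hxS]
          apply h2 x hx
          · rw [card_erase_of_mem (mem_insert_of_mem (hSx x0)), card_insert_of_notMem hxS, hSn x0]
            simp
          · exact mem_erase.2 ⟨hx, mem_insert_self _ _⟩
      · intro h; exact absurd (mem_univ _) h
    have h5 : ∀ x, ∀ C : Finset κ, C.card = n → x ∈ C → HH n A c h x C = 0 := by
      intro x C hC hxC
      by_cases hx : x = x0
      · subst hx
        rw [HH_const hκ hcA hinj hint hh (hSn x) (hSx x) _ C rfl hC hxC]
        exact h3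
      · exact h2 x hx C hC hxC
    apply Subtype.ext
    funext v
    obtain ⟨C, hC, hvC⟩ := hcov v
    have h6 := h5 (c v) C hC (hcA C hC v hvC)
    unfold HH at h6
    rw [sum_eq_single v] at h6
    · rw [if_pos rfl] at h6
      have h7 : dd n A v C = 1 := if_pos ⟨hC, hvC⟩
      rw [h7, mul_one] at h6
      exact h6
    · intro w _ hw
      by_cases hcw : c w = c v
      · have h7 : dd n A w C = 0 := if_neg fun h => hw (hinj C hC w h.2 v hvC hcw)
        rw [if_pos hcw, h7, mul_zero]
      · rw [if_neg hcw]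
    · intro h; exact absurd (mem_univ _) h
  have h := LinearMap.finrank_le_finrank_of_injective hinjΛ
  rw [Module.finrank_fintype_fun_eq_card] at h
  have h2 : Fintype.card {x : κ // x ≠ x0} = 2 * n - 2 := by
    rw [Fintype.card_subtype_compl, Fintype.card_subtype_eq]
    omega
  rw [h2] at h
  exact h

theorem main_fam {n : ℕ} (hκ : Fintype.card κ + 1 = 2 * n) (hn : 2 ≤ n)
    {A : Finset κ → Finset V} {c : V → κ}
    (hcA : ∀ C, C.card = n → ∀ v ∈ A C, c v ∈ C)
    (hinj : ∀ C, C.card = n → ∀ v ∈ A C, ∀ w ∈ A C, c v = c w → v = w)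
    (hint : ∀ C C', C.card = n → C'.card = n → ∃ v, v ∈ A C ∧ v ∈ A C')
    (hcov : ∀ v, ∃ C, C.card = n ∧ v ∈ A C) :
    2 * Fintype.card V ≤ (2 * n - 2).choose (n - 1) + 2 * (2 * n - 2) := by
  have hne : 0 < Fintype.card κ := by omega
  obtain ⟨x0⟩ := Fintype.card_pos_iff.1 hne
  have h1 := rank_bound hκ hn x0 hcA hinj hint
  have h2 := ker_bound hκ hn x0 hcA hinj hint hcov
  have h3 := LinearMap.finrank_range_add_finrank_ker (EE hκ A c)
  rw [Module.finrank_fintype_fun_eq_card] at h3
  omega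

end fin

theorem main_clique {n : ℕ} (hκ : Fintype.card κ + 1 = 2 * n) (hn : 2 ≤ n)
    {V : Type} [DecidableEq V] (F : Finset (Finset V))
    (hunif : ∀ A ∈ F, A.card = n)
    (hint : ∀ A ∈ F, ∀ B ∈ F, (A ∩ B).Nonempty)
    (hchi : ∀ S : Finset V, ∃ A ∈ F, A ⊆ S ∨ Disjoint A S)
    (c : V → κ) (hc : ∀ A ∈ F, ∀ v ∈ A, ∀ w ∈ A, c v = c w → v = w) :
    2 * (F.biUnion id).card ≤ (2 * n - 2).choose (n - 1) + 2 * (2 * n - 2) := by
  have hX : ∀ A ∈ F, ∀ v ∈ A, v ∈ F.biUnion id := fun A hA v hv =>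
    mem_biUnion.2 ⟨A, hA, hv⟩
  have hex : ∀ C : Finset κ, ∃ A : Finset V, C.card = n → A ∈ F ∧ ∀ v ∈ A, c v ∈ C := by
    intro C
    by_cases hC : C.card = n
    · obtain ⟨A, hA, h1⟩ := hchi ((F.biUnion id).filter fun v => c v ∈ C)
      refine ⟨A, fun _ => ⟨hA, ?_⟩⟩
      rcases h1 with h1 | h1
      · intro v hv
        exact (mem_filter.1 (h1 hv)).2
      · exfalso
        have h2 : A.image c ⊆ Cᶜ := by
          intro z hz
          obtain ⟨v, hv, rfl⟩ := mem_image.1 hz
          rw [mem_compl]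
          intro h3
          exact (disjoint_left.1 h1 hv) (mem_filter.2 ⟨hX A hA v hv, h3⟩)
        have h3 : (A.image c).card = n := by
          rw [card_image_of_injOn (fun v hv w hw h => hc A hA v hv w hw h), hunif A hA]
        have h4 := card_le_card h2
        rw [h3, card_compl, hC] at h4
        omega
    · exact ⟨∅, fun h => absurd h hC⟩
  choose A0 hA0 using hex
  have hcard : Fintype.card {v // v ∈ F.biUnion id} = (F.biUnion id).card := Fintype.card_coe _
  rw [← hcard]
  refine main_fam hκ hn (A := fun C => univ.filter fun v : {v // v ∈ F.biUnion id} => (v : V) ∈ A0 C)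
    (c := fun v => c v) ?_ ?_ ?_ ?_
  · intro C hC v hv
    exact (hA0 C hC).2 v (mem_filter.1 hv).2
  · intro C hC v hv w hw h
    exact Subtype.ext (hc _ (hA0 C hC).1 v (mem_filter.1 hv).2 w (mem_filter.1 hw).2 h)
  · intro C C' hC hC'
    obtain ⟨v, hv⟩ := hint _ (hA0 C hC).1 _ (hA0 C' hC').1
    rw [mem_inter] at hv
    exact ⟨⟨v, hX _ (hA0 C hC).1 v hv.1⟩, mem_filter.2 ⟨mem_univ _, hv.1⟩,
      mem_filter.2 ⟨mem_univ _, hv.2⟩⟩
  · rintro ⟨v, hv⟩
    obtain ⟨A, hA, hvA⟩ := mem_biUnion.1 hv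
    simp only [id] at hvA
    have hC : (A.image c).card = n := by
      rw [card_image_of_injOn (fun v hv w hw h => hc A hA v hv w hw h), hunif A hA]
    refine ⟨A.image c, hC, mem_filter.2 ⟨mem_univ _, ?_⟩⟩
    have hz : c v ∈ A.image c := mem_image_of_mem c hvA
    have hst : (st (c v) (A.image c)).card = n := st_card hκ hz hC
    have hone : ∀ z, z ∈ A.image c → z ∈ st (c v) (A.image c) → z = c v := by
      intro z h1 h2
      simp only [st, mem_insert, mem_compl] at h2
      rcases h2 with h2 | h2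
      · exact h2
      · exact absurd h1 h2
    obtain ⟨w, hw⟩ := hint A hA _ (hA0 _ hst).1
    rw [mem_inter] at hw
    obtain ⟨w', hw'⟩ := hint _ (hA0 _ hC).1 _ (hA0 _ hst).1
    rw [mem_inter] at hw'
    have h1 : c w = c v := hone _ (mem_image_of_mem c hw.1) ((hA0 _ hst).2 w hw.2)
    have h2 : c w' = c v := hone _ ((hA0 _ hC).2 w' hw'.1) ((hA0 _ hst).2 w' hw'.2)
    have h3 : w = v := hc A hA w hw.1 v hvA h1
    have h4 : w = w' := hc _ (hA0 _ hst).1 w hw.2 w' hw'.2 (h1.trans h2.symm)
    show v ∈ A0 (A.image c)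
    rw [← h3, h4]
    exact hw'.1

theorem final (n : ℕ) (hn : 2 ≤ n) (V : Type) [DecidableEq V] (F : Finset (Finset V))
    (hunif : ∀ A ∈ F, A.card = n)
    (hint : ∀ A ∈ F, ∀ B ∈ F, (A ∩ B).Nonempty)
    (hchi : ∀ S : Finset V, ∃ A ∈ F, A ⊆ S ∨ Disjoint A S)
    (c : V → Fin (2 * n - 1)) (hc : ∀ A ∈ F, ∀ v ∈ A, ∀ w ∈ A, c v = c w → v = w) :
    2 * (F.biUnion id).card ≤ (2 * n - 2).choose (n - 1) + 2 * (2 * n - 2) :=
  main_clique (by rw [Fintype.card_fin]; omega) hn F hunif hint hchi c hc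

end Pool.Agent.Helper454.EL

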