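import Pool.Agent.Helper454.EL.Main

set_option autoImplicit false
set_option linter.unusedSectionVars false
set_option linter.unusedVariables false

open Finset

namespace Pool.Agent.Helper454.EL

section counts

variable {κ : Type} [Fintype κ] [DecidableEq κ] {V : Type} [DecidableEq V]

theorem exA {n : ℕ} (hκ : Fintype.card κ + 1 = 2 * n) (F : Finset (Finset V))
    (hunif : ∀ A ∈ F, A.card = n)
    (hchi : ∀ S : Finset V, ∃ A ∈ F, A ⊆ S ∨ Disjoint A S)
    (c : V → κ) (hc : ∀ A ∈ F, ∀ v ∈ A, ∀ w ∈ A, c v = c w → v = w) (C : Finset κ)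
    (hC : C.card = n) : ∃ A ∈ F, A.image c = C := by
  obtain ⟨A, hA, h1⟩ := hchi ((F.biUnion id).filter fun v => c v ∈ C)
  have h3 : (A.image c).card = n := by
    rw [card_image_of_injOn (fun v hv w hw h => hc A hA v hv w hw h), hunif A hA]
  rcases h1 with h1 | h1
  · refine ⟨A, hA, eq_of_subset_of_card_le ?_ (by rw [h3, hC])⟩
    intro z hz
    obtain ⟨v, hv, rfl⟩ := mem_image.1 hz
    exact (mem_filter.1 (h1 hv)).2
  · exfalso
    have h2 : A.image c ⊆ Cᶜ := by
      intro z hz
      obtain ⟨v, hv, rfl⟩ := mem_image.1 hz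
      rw [mem_compl]
      intro h3
      exact (disjoint_left.1 h1 hv) (mem_filter.2 ⟨mem_biUnion.2 ⟨A, hA, hv⟩, h3⟩)
    have h4 := card_le_card h2
    rw [h3, card_compl, hC] at h4
    omega

theorem sub_of_image {n : ℕ} (hκ : Fintype.card κ + 1 = 2 * n) (F : Finset (Finset V))
    (hunif : ∀ A ∈ F, A.card = n)
    (hint : ∀ A ∈ F, ∀ B ∈ F, (A ∩ B).Nonempty)
    (hchi : ∀ S : Finset V, ∃ A ∈ F, A ⊆ S ∨ Disjoint A S)
    (c : V → κ) (hc : ∀ A ∈ F, ∀ v ∈ A, ∀ w ∈ A, c v = c w → v = w) {A B : Finset V}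
    (hA : A ∈ F) (hB : B ∈ F) (hAB : A.image c = B.image c) : A ⊆ B := by
  intro v hv
  have hC : (A.image c).card = n := by
    rw [card_image_of_injOn (fun v hv w hw h => hc A hA v hv w hw h), hunif A hA]
  have hz : c v ∈ A.image c := mem_image_of_mem c hv
  have hst : (st (c v) (A.image c)).card = n := st_card hκ hz hC
  obtain ⟨E, hE, hEC⟩ := exA hκ F hunif hchi c hc _ hst
  have hone : ∀ z, z ∈ A.image c → z ∈ st (c v) (A.image c) → z = c v := by
    intro z h1 h2
    simp only [st, mem_insert, mem_compl] at h2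
    rcases h2 with h2 | h2
    · exact h2
    · exact absurd h1 h2
  obtain ⟨w, hw⟩ := hint A hA E hE
  rw [mem_inter] at hw
  obtain ⟨w', hw'⟩ := hint B hB E hE
  rw [mem_inter] at hw'
  have h1 : c w = c v := hone _ (mem_image_of_mem c hw.1) (hEC ▸ mem_image_of_mem c hw.2)
  have h2 : c w' = c v := hone _ (hAB ▸ mem_image_of_mem c hw'.1) (hEC ▸ mem_image_of_mem c hw'.2)
  have h3 : w = v := hc A hA w hw.1 v hv h1
  have h4 : w = w' := hc E hE w hw.2 w' hw'.2 (h1.trans h2.symm)
  rw [← h3, h4]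
  exact hw'.1

theorem edge_count {n : ℕ} (hκ : Fintype.card κ + 1 = 2 * n) (F : Finset (Finset V))
    (hunif : ∀ A ∈ F, A.card = n)
    (hint : ∀ A ∈ F, ∀ B ∈ F, (A ∩ B).Nonempty)
    (hchi : ∀ S : Finset V, ∃ A ∈ F, A ⊆ S ∨ Disjoint A S)
    (c : V → κ) (hc : ∀ A ∈ F, ∀ v ∈ A, ∀ w ∈ A, c v = c w → v = w) :
    F.card = (2 * n - 1).choose n := by
  have h1 : F.card = (powersetCard n (univ : Finset κ)).card := by
    refine card_bij (fun A _ => A.image c) ?_ ?_ ?_
    · intro A hA
      rw [mem_powersetCard]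
      refine ⟨subset_univ _, ?_⟩
      rw [card_image_of_injOn (fun v hv w hw h => hc A hA v hv w hw h), hunif A hA]
    · intro A hA B hB hAB
      exact (sub_of_image hκ F hunif hint hchi c hc hA hB hAB).antisymm
        (sub_of_image hκ F hunif hint hchi c hc hB hA hAB.symm)
    · intro C hC
      rw [mem_powersetCard] at hC
      obtain ⟨A, hA, hAC⟩ := exA hκ F hunif hchi c hc C hC.2
      exact ⟨A, hA, hAC⟩
  rw [h1, card_powersetCard, card_univ]
  congr 1
  omega

theorem vert_lower {n : ℕ} (hκ : Fintype.card κ + 1 = 2 * n) (hn : 2 ≤ n) (F : Finset (Finset V))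
    (hunif : ∀ A ∈ F, A.card = n)
    (hchi : ∀ S : Finset V, ∃ A ∈ F, A ⊆ S ∨ Disjoint A S)
    (c : V → κ) (hc : ∀ A ∈ F, ∀ v ∈ A, ∀ w ∈ A, c v = c w → v = w) :
    2 * n - 1 ≤ (F.biUnion id).card := by
  have h1 : (univ : Finset κ) ⊆ (F.biUnion id).image c := by
    intro x _
    obtain ⟨S, h1, h2⟩ := exists_superset_card_eq (s := ({x} : Finset κ)) (n := n)
      (by rw [card_singleton]; omega) (by omega)
    obtain ⟨A, hA, hAS⟩ := exA hκ F hunif hchi c hc S h2
    have h3 : x ∈ A.image c := by rw [hAS]; exact h1 (mem_singleton_self x)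
    obtain ⟨v, hv, hvx⟩ := mem_image.1 h3
    exact mem_image.2 ⟨v, mem_biUnion.2 ⟨A, hA, hv⟩, hvx⟩
  have h2 := (card_le_card h1).trans card_image_le
  rw [card_univ] at h2
  omega

end counts

section construction

theorem enum_exists (R0 : Finset (Finset ℕ)) :
    ∃ e : Finset ℕ → ℕ, ∀ j < R0.card, ∃ P ∈ R0, e P = j := by
  refine ⟨fun P => if h : P ∈ R0 then (R0.equivFin ⟨P, h⟩ : ℕ) else 0, fun j hj => ?_⟩
  refine ⟨(R0.equivFin.symm ⟨j, hj⟩ : Finset ℕ), (R0.equivFin.symm ⟨j, hj⟩).2, ?_⟩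
  simp

theorem half_choose {n : ℕ} (hn : 2 ≤ n) :
    (2 * n - 2).choose (n - 1) = 2 * (2 * n - 3).choose (n - 2) := by
  obtain ⟨m, rfl⟩ : ∃ m, n = m + 2 := ⟨n - 2, by omega⟩
  have h1 : 2 * (m + 2) - 2 = (2 * m + 1) + 1 := by omega
  have h2 : m + 2 - 1 = m + 1 := by omega
  have h3 : 2 * (m + 2) - 3 = 2 * m + 1 := by omega
  have h4 : m + 2 - 2 = m := by omega
  rw [h1, h2, h3, h4, Nat.choose_succ_succ, Nat.choose_symm_half]
  ring

theorem R0_card {n : ℕ} (hn : 2 ≤ n) :
    (2 * n - 3).choose (n - 2) ≤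
      ((powersetCard (n - 1) (range (2 * n - 2))).filter fun P => 0 ∈ P).card := by
  have h1 : ((powersetCard (n - 2) ((range (2 * n - 2)).erase 0)).image (insert 0)) ⊆
      ((powersetCard (n - 1) (range (2 * n - 2))).filter fun P => 0 ∈ P) := by
    intro P hP
    obtain ⟨Q, hQ, rfl⟩ := mem_image.1 hP
    rw [mem_powersetCard] at hQ
    rw [mem_filter, mem_powersetCard]
    have h0 : (0 : ℕ) ∉ Q := fun h => by simpa using hQ.1 h
    refine ⟨⟨?_, ?_⟩, mem_insert_self _ _⟩
    · intro z hz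
      rcases mem_insert.1 hz with rfl | hz
      · rw [mem_range]; omega
      · exact mem_of_mem_erase (hQ.1 hz)
    · rw [card_insert_of_notMem h0, hQ.2]; omega
  refine le_trans ?_ (card_le_card h1)
  rw [card_image_of_injOn, card_powersetCard, card_erase_of_mem (by rw [mem_range]; omega),
    card_range]
  · have : 2 * n - 2 - 1 = 2 * n - 3 := by omega
    rw [this]
  · intro P hP Q hQ hPQ
    rw [mem_coe, mem_powersetCard] at hP hQ
    have h0 : (0 : ℕ) ∉ P := fun h => by simpa using hP.1 h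
    have h0' : (0 : ℕ) ∉ Q := fun h => by simpa using hQ.1 h
    have := congrArg (fun S => S.erase 0) hPQ
    simpa [erase_insert h0, erase_insert h0'] using this

theorem three_col {n : ℕ} (hn : 2 ≤ n) (F : Finset (Finset ℕ))
    (hunif : ∀ e ∈ F, e.card = n) (hint : ∀ e ∈ F, ∀ f ∈ F, (e ∩ f).Nonempty) :
    ∃ c : ℕ → Fin 3, ∀ e ∈ F, ∃ x ∈ e, ∃ y ∈ e, c x ≠ c y := by
  rcases F.eq_empty_or_nonempty with rfl | ⟨E, hE⟩
  · exact ⟨fun _ => 0, fun e he => absurd he (notMem_empty e)⟩
  obtain ⟨x, hx⟩ : E.Nonempty := card_pos.1 (by rw [hunif E hE]; omega)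
  refine ⟨fun v => if v = x then 0 else if v ∈ E then 1 else 2, fun f hf => ?_⟩
  obtain ⟨y, hy⟩ := hint f hf E hE
  rw [mem_inter] at hy
  by_cases hyx : y = x
  · subst hyx
    obtain ⟨z, hz, hzy⟩ := exists_mem_ne (by rw [hunif f hf]; omega : 1 < f.card) y
    refine ⟨y, hy.1, z, hz, ?_⟩
    simp only [if_true, if_neg hzy]
    split_ifs <;> decide
  · by_cases hsub : f ⊆ E.erase x
    · have := card_le_card hsub
      rw [card_erase_of_mem hx, hunif f hf, hunif E hE] at this
      omega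
    · obtain ⟨z, hz, hz'⟩ := not_subset.1 hsub
      refine ⟨y, hy.1, z, hz, ?_⟩
      simp only [if_neg hyx, if_pos hy.2]
      by_cases hzx : z = x
      · rw [if_pos hzx]; decide
      · rw [if_neg hzx, if_neg (fun h => hz' (mem_erase.2 ⟨hzx, h⟩))]; decide

theorem construct {n : ℕ} (hn : 2 ≤ n) {k : ℕ} (hk1 : 1 ≤ k) (hk : k ≤ (2 * n - 3).choose (n - 2)) :
    ∃ F : Finset (Finset ℕ), (∀ e ∈ F, e.card = n) ∧ (∀ e ∈ F, ∀ f ∈ F, (e ∩ f).Nonempty) ∧
      (¬ ∃ c : ℕ → Fin 2, ∀ e ∈ F, ∃ x ∈ e, ∃ y ∈ e, c x ≠ c y) ∧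
      (∃ c : ℕ → Fin (2 * n - 1), ∀ e ∈ F, ∀ x ∈ e, ∀ y ∈ e, c x = c y → x = y) ∧
      (F.biUnion id).card = 2 * n - 2 + k ∧
      (∀ A : Finset ℕ, A ⊆ range (2 * n - 2) → A.card = n → A ∈ F) := by
  classical
  obtain ⟨e, he⟩ := enum_exists ((powersetCard (n - 1) (range (2 * n - 2))).filter fun P => 0 ∈ P)
  have hR0 := R0_card hn
  set N := 2 * n - 2 with hN
  let rep : Finset ℕ → Finset ℕ := fun P => if 0 ∈ P then P else range N \ P
  let g : Finset ℕ → ℕ := fun P => min (e (rep P)) (k - 1)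
  have hrep : ∀ P : Finset ℕ, P ⊆ range N → rep (range N \ P) = rep P := by
    intro P hP
    have h0N : (0 : ℕ) ∈ range N := by rw [mem_range]; omega
    by_cases h0 : 0 ∈ P
    · have : (0 : ℕ) ∉ range N \ P := fun h => (mem_sdiff.1 h).2 h0
      simp only [rep, if_pos h0, if_neg this]
      rw [sdiff_sdiff_right_self]
      exact inter_eq_right.2 hP
    · have : (0 : ℕ) ∈ range N \ P := mem_sdiff.2 ⟨h0N, h0⟩
      simp only [rep, if_neg h0, if_pos this]
  have hg : ∀ P : Finset ℕ, P ⊆ range N → g (range N \ P) = g P := by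
    intro P hP
    simp only [g, hrep P hP]
  have hgk : ∀ P, g P < k := fun P => by
    have := min_le_right (e (rep P)) (k - 1)
    show min (e (rep P)) (k - 1) < k
    omega
  have hnotin : ∀ P : Finset ℕ, P ⊆ range N → ∀ j, N + j ∉ P := by
    intro P hP j h
    have := mem_range.1 (hP h)
    omega
  let F : Finset (Finset ℕ) := (powersetCard (n - 1) (range N)).image (fun P => insert (N + g P) P) ∪
    powersetCard n (range N)
  have hF : ∀ f, f ∈ F ↔ (∃ P : Finset ℕ, P ⊆ range N ∧ P.card = n - 1 ∧ insert (N + g P) P = f) ∨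
      (f ⊆ range N ∧ f.card = n) := by
    intro f
    simp only [F, mem_union, mem_image, mem_powersetCard, and_assoc]
  have hmeet : ∀ P Q : Finset ℕ, P ⊆ range N → Q ⊆ range N → N < P.card + Q.card →
      (P ∩ Q).Nonempty := by
    intro P Q hP hQ hPQ
    rw [← card_pos]
    have h1 := card_inter_add_card_union P Q
    have h2 := card_le_card (union_subset hP hQ)
    rw [card_range] at h2
    omega
  refine ⟨F, ?_, ?_, ?_, ?_, ?_, fun A h1 h2 => (hF A).2 (Or.inr ⟨h1, h2⟩)⟩
  · intro f hf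
    rcases (hF f).1 hf with ⟨P, hP, hPn, rfl⟩ | ⟨h1, h2⟩
    · rw [card_insert_of_notMem (hnotin P hP _), hPn]; omega
    · exact h2
  · intro f hf f' hf'
    rcases (hF f).1 hf with ⟨P, hP, hPn, rfl⟩ | ⟨h1, h2⟩
    · rcases (hF f').1 hf' with ⟨Q, hQ, hQn, rfl⟩ | ⟨h1, h2⟩
      · by_cases hPQ : (P ∩ Q).Nonempty
        · exact hPQ.mono (inter_subset_inter (subset_insert _ _) (subset_insert _ _))
        · rw [not_nonempty_iff_eq_empty] at hPQ
          have hQ' : Q = range N \ P := by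
            apply eq_of_subset_of_card_le
            · intro z hz
              exact mem_sdiff.2 ⟨hQ hz, fun h => by
                have : z ∈ P ∩ Q := mem_inter.2 ⟨h, hz⟩
                rw [hPQ] at this
                exact absurd this (notMem_empty z)⟩
            · rw [card_sdiff_of_subset hP, card_range, hPn, hQn]; omega
          refine ⟨N + g P, mem_inter.2 ⟨mem_insert_self _ _, ?_⟩⟩
          rw [hQ', hg P hP]
          exact mem_insert_self _ _
      · obtain ⟨z, hz⟩ := hmeet P f' hP h1 (by rw [hPn, h2]; omega)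
        rw [mem_inter] at hz
        exact ⟨z, mem_inter.2 ⟨mem_insert_of_mem hz.1, hz.2⟩⟩
    · rcases (hF f').1 hf' with ⟨Q, hQ, hQn, rfl⟩ | ⟨h3, h4⟩
      · obtain ⟨z, hz⟩ := hmeet f Q h1 hQ (by rw [hQn, h2]; omega)
        rw [mem_inter] at hz
        exact ⟨z, mem_inter.2 ⟨hz.1, mem_insert_of_mem hz.2⟩⟩
      · exact hmeet f f' h1 h3 (by rw [h2, h4]; omega)
  · rintro ⟨c, hc⟩
    have hmono : ∀ f ∈ F, ∀ i : Fin 2, ¬ ∀ x ∈ f, c x = i := by
      intro f hf i h
      obtain ⟨x, hx, y, hy, hxy⟩ := hc f hf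
      exact hxy ((h x hx).trans (h y hy).symm)
    have hsub : ∀ i : Fin 2, ((range N).filter fun x => c x = i).card < n := by
      intro i
      by_contra hcon
      push Not at hcon
      obtain ⟨T, hT, hTn⟩ := exists_subset_card_eq hcon
      refine hmono T ((hF T).2 (Or.inr ⟨hT.trans (filter_subset _ _), hTn⟩)) i fun x hx => ?_
      exact (mem_filter.1 (hT hx)).2
    have hsum : ((range N).filter fun x => c x = 0).card + ((range N).filter fun x => ¬ c x = 0).card
        = N := by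
      rw [card_filter_add_card_filter_not, card_range]
    have h01 : ((range N).filter fun x => ¬ c x = 0) = (range N).filter fun x => c x = 1 := by
      ext x
      simp only [mem_filter, and_congr_right_iff]
      intro _
      generalize c x = t
      revert t
      decide
    have h0 := hsub 0
    have h1 := hsub 1
    rw [h01] at hsum
    have hs0 : ((range N).filter fun x => c x = 0).card = n - 1 := by omega
    have hs1 : ((range N).filter fun x => c x = 1).card = n - 1 := by omega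
    have hcompl : ((range N).filter fun x => c x = 1) = range N \ (range N).filter fun x => c x = 0 := by
      rw [← h01]
      ext x
      simp only [mem_filter, mem_sdiff]
      tauto
    have hgg : g ((range N).filter fun x => c x = 1) = g ((range N).filter fun x => c x = 0) := by
      rw [hcompl]; exact hg _ (filter_subset _ _)
    have hcase : c (N + g ((range N).filter fun x => c x = 0)) = 0 ∨
        c (N + g ((range N).filter fun x => c x = 0)) = 1 := by
      generalize c (N + g ((range N).filter fun x => c x = 0)) = t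
      revert t
      decide
    rcases hcase with h | h
    · refine hmono _ ((hF _).2 (Or.inl ⟨_, filter_subset _ _, hs0, rfl⟩)) 0 fun x hx => ?_
      rcases mem_insert.1 hx with rfl | hx
      · exact h
      · exact (mem_filter.1 hx).2
    · refine hmono _ ((hF _).2 (Or.inl ⟨_, filter_subset _ _, hs1, rfl⟩)) 1 fun x hx => ?_
      rcases mem_insert.1 hx with rfl | hx
      · rw [hgg]; exact h
      · exact (mem_filter.1 hx).2
  · refine ⟨fun x => ⟨min x N, by omega⟩, fun f hf x hx y hy hxy => ?_⟩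
    have hxy' : min x N = min y N := by simpa using hxy
    rcases (hF f).1 hf with ⟨P, hP, hPn, rfl⟩ | ⟨h1, h2⟩
    · rcases mem_insert.1 hx with hx | hx
      · rcases mem_insert.1 hy with hy | hy
        · rw [hx, hy]
        · have := mem_range.1 (hP hy)
          omega
      · have h3 := mem_range.1 (hP hx)
        rcases mem_insert.1 hy with hy | hy
        · omega
        · have := mem_range.1 (hP hy)
          omega
    · have h3 := mem_range.1 (h1 hx)
      have h4 := mem_range.1 (h1 hy)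
      omega
  · have hU : F.biUnion id = range (N + k) := by
      ext x
      simp only [mem_biUnion, id, mem_range]
      constructor
      · rintro ⟨f, hf, hx⟩
        rcases (hF f).1 hf with ⟨P, hP, hPn, rfl⟩ | ⟨h1, h2⟩
        · rcases mem_insert.1 hx with hx | hx
          · have := hgk P
            omega
          · have := mem_range.1 (hP hx)
            omega
        · have := mem_range.1 (h1 hx)
          omega
      · intro hx
        by_cases hxN : x < N
        · obtain ⟨T, h1, h2, h3⟩ := exists_subsuperset_card_eq (s := {x}) (t := range N) (n := n)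
            (by intro z hz; rw [mem_singleton] at hz; subst hz; exact mem_range.2 hxN)
            (by rw [card_singleton]; omega) (by rw [card_range]; omega)
          exact ⟨T, (hF T).2 (Or.inr ⟨h2, h3⟩), h1 (mem_singleton_self x)⟩
        · obtain ⟨P, hP, hPe⟩ := he (x - N) (by omega)
          rw [mem_filter, mem_powersetCard] at hP
          refine ⟨insert (N + g P) P, (hF _).2 (Or.inl ⟨P, hP.1.1, hP.1.2, rfl⟩), ?_⟩
          have hgP : g P = x - N := by
            show min (e (rep P)) (k - 1) = x - N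
            have : rep P = P := if_pos hP.2
            rw [this, hPe]
            omega
          rw [hgP]
          refine mem_insert.2 (Or.inl ?_)
          omega
    rw [hU, card_range]

end construction

theorem hchi_of {n : ℕ} {F : Finset (Finset ℕ)}
    (h : ¬ ∃ c : ℕ → Fin 2, ∀ e ∈ F, ∃ x ∈ e, ∃ y ∈ e, c x ≠ c y) (S : Finset ℕ) :
    ∃ A ∈ F, A ⊆ S ∨ Disjoint A S := by
  by_contra hcon
  push Not at hcon
  refine h ⟨fun x => if x ∈ S then 0 else 1, fun e he => ?_⟩
  obtain ⟨h1, h2⟩ := hcon e he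
  obtain ⟨x, hx, hxS⟩ := not_subset.1 h1
  obtain ⟨y, hy, hyS⟩ := not_disjoint_iff.1 h2
  refine ⟨x, hx, y, hy, ?_⟩
  simp [hxS, hyS]

theorem spectrum (n : ℕ) (hn : 2 ≤ n) :
    {p : ℕ × ℕ | ∃ F : Finset (Finset ℕ),
      (∀ e ∈ F, e.card = n) ∧
      (∀ e ∈ F, ∀ f ∈ F, (e ∩ f).Nonempty) ∧
      (¬ ∃ c : ℕ → Fin 2, ∀ e ∈ F, ∃ x ∈ e, ∃ y ∈ e, c x ≠ c y) ∧
      (∃ c : ℕ → Fin 3, ∀ e ∈ F, ∃ x ∈ e, ∃ y ∈ e, c x ≠ c y) ∧
      (∃ c : ℕ → Fin (2 * n - 1), ∀ e ∈ F, ∀ x ∈ e, ∀ y ∈ e, c x = c y → x = y) ∧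
      p = (F.card, (F.biUnion id).card)} =
    {p : ℕ × ℕ | p.1 = (2 * n - 1).choose n ∧ 2 * n - 1 ≤ p.2 ∧
      p.2 ≤ (2 * n - 2).choose (n - 1) / 2 + (2 * n - 2)} := by
  have hκ : Fintype.card (Fin (2 * n - 1)) + 1 = 2 * n := by rw [Fintype.card_fin]; omega
  ext p
  simp only [Set.mem_ofPred_eq]
  constructor
  · rintro ⟨F, h1, h2, h3, -, ⟨c, hc⟩, rfl⟩
    have hchi := hchi_of (n := n) h3
    refine ⟨edge_count hκ F h1 h2 hchi c hc, vert_lower hκ hn F h1 hchi c hc, ?_⟩
    have := final n hn ℕ F h1 h2 hchi c hc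
    show (F.biUnion id).card ≤ _
    omega
  · rintro ⟨h1, h2, h3⟩
    have h4 := half_choose hn
    obtain ⟨F, hF1, hF2, hF3, hF4, hF5, -⟩ := construct hn (k := p.2 - (2 * n - 2)) (by omega) (by omega)
    obtain ⟨c, hc⟩ := hF4
    refine ⟨F, hF1, hF2, hF3, three_col hn F hF1 hF2, ⟨c, hc⟩, ?_⟩
    refine Prod.ext ?_ ?_
    · rw [h1]
      exact (edge_count hκ F hF1 hF2 (hchi_of (n := n) hF3) c hc).symm
    · show p.2 = (F.biUnion id).card
      omega

end Pool.Agent.Helper454.EL
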